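import Pool.Agent.H37.MHD.Defs2

/-!
# MP_59296a_an, module M4: the phases

Smoothness and non-degeneracy of the phases `h_i^a = φ^a ∘ Y_i` and of `N_a`.

The three facts used about the back-to-labels maps (`Stage.Y_near`, `Stage.DY`, `Stage.Y_ne`) are
hypotheses of the `_aux` lemmas here.
-/

open MeasureTheory Set Filter Topology
open scoped ContDiff
open H36.MHD

noncomputable section

namespace H37.MHD

variable {B : Bg}

theorem phi_of_lt {a : Fin 4} (h : a.val < 3) (y : V3) : phi B a y = y ⟨a.val, h⟩ := by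
  unfold phi
  rw [dif_pos h]

theorem phi_of_not_lt {a : Fin 4} (h : ¬ a.val < 3) (y : V3) :
    phi B a y = (∑ j, (y j - B.x0 j) ^ 2) / 2 + 4 * (y 0 - B.x0 0) := by
  unfold phi
  rw [dif_neg h]

theorem phi_smooth (a : Fin 4) : ContDiff ℝ ∞ (phi B a) := by
  by_cases h : a.val < 3
  · have e : phi B a = fun y : V3 => y ⟨a.val, h⟩ := by
      funext y
      exact phi_of_lt h y
    rw [e]
    exact contDiff_apply ℝ ℝ _
  · have e : phi B a = fun y : V3 => (∑ j, (y j - B.x0 j) ^ 2) / 2 + 4 * (y 0 - B.x0 0) := by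
      funext y
      exact phi_of_not_lt h y
    rw [e]
    have hc : ∀ j : Fin 3, ContDiff ℝ ∞ (fun y : V3 => y j) := fun j => contDiff_apply ℝ ℝ j
    refine ContDiff.add (ContDiff.div_const (ContDiff.sum fun j _ => ?_) 2) ?_
    · exact ((hc j).sub contDiff_const).pow 2
    · exact contDiff_const.mul ((hc 0).sub contDiff_const)

theorem vecY_smooth (st : Stage B) (i : Fin 2) : ContDiff ℝ ∞ (fun z => vec (st.Y i) z) :=
  contDiff_pi.2 fun j => st.Y_smooth i j

theorem Stage.h_smooth (st : Stage B) (i : Fin 2) (a : Fin 4) : ContDiff ℝ ∞ (st.h i a) := by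
  have h := (phi_smooth (B := B) a).comp (vecY_smooth st i)
  exact h

/-- the spatial derivative of a smooth function is smooth -/
theorem dx_smooth {g : X → ℝ} (hg : ContDiff ℝ ∞ g) (k : Fin 3) : ContDiff ℝ ∞ (dx k g) := by
  have h : ContDiff ℝ ∞ (fderiv ℝ g) := hg.fderiv_right (by norm_num)
  exact h.clm_apply contDiff_const

theorem Stage.NN_smooth (st : Stage B) (a : Fin 4) : ContDiff ℝ ∞ (st.NN a) := by
  unfold Stage.NN
  refine ContDiff.pow (ContDiff.sum fun k _ => ContDiff.pow (ContDiff.sub ?_ ?_) 2) 2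
  · exact dx_smooth (st.h_smooth 0 a) k
  · exact dx_smooth (st.h_smooth 1 a) k

theorem Stage.NN_nonneg (st : Stage B) (a : Fin 4) (z : X) : 0 ≤ st.NN a z := by
  unfold Stage.NN
  positivity

/-- derivative of a phase with `a < 3` -/
theorem dx_h_of_lt (st : Stage B) (i : Fin 2) {a : Fin 4} (h : a.val < 3) (k : Fin 3) (z : X) :
    dx k (st.h i a) z = dx k (st.Y i ⟨a.val, h⟩) z := by
  have e : st.h i a = st.Y i ⟨a.val, h⟩ := by
    funext z
    show phi B a (vec (st.Y i) z) = _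
    rw [phi_of_lt h]
    rfl
  rw [e]

/-- derivative of the fourth phase -/
theorem dx_h_of_not_lt (st : Stage B) (i : Fin 2) {a : Fin 4} (h : ¬ a.val < 3) (k : Fin 3)
    (z : X) :
    dx k (st.h i a) z
      = ∑ j, (st.Y i j z - B.x0 j) * dx k (st.Y i j) z + 4 * dx k (st.Y i 0) z := by
  have e : st.h i a = fun z : X =>
      (∑ j, (st.Y i j z - B.x0 j) ^ 2) / 2 + 4 * (st.Y i 0 z - B.x0 0) := by
    funext z
    show phi B a (vec (st.Y i) z) = _
    rw [phi_of_not_lt h]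
    rfl
  have hd : ∀ j, HasFDerivAt (st.Y i j) (fderiv ℝ (st.Y i j) z) z := fun j =>
    ((st.Y_smooth i j).differentiable (by norm_num)).differentiableAt.hasFDerivAt
  have h1 : ∀ j, HasFDerivAt (fun z : X => (st.Y i j z - B.x0 j) ^ 2)
      ((2 * (st.Y i j z - B.x0 j)) • fderiv ℝ (st.Y i j) z) z := by
    intro j
    have := ((hd j).sub_const (B.x0 j)).pow 2
    refine this.congr_fderiv ?_
    ext v <;> simp
  have h2 : HasFDerivAt (fun z : X => ∑ j, (st.Y i j z - B.x0 j) ^ 2)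
      (∑ j, (2 * (st.Y i j z - B.x0 j)) • fderiv ℝ (st.Y i j) z) z :=
    HasFDerivAt.fun_sum fun j _ => h1 j
  have h3 := (h2.mul_const (1 / 2 : ℝ)).add (((hd 0).sub_const (B.x0 0)).const_mul 4)
  have h4 : HasFDerivAt (st.h i a)
      ((1 / 2 : ℝ) • (∑ j, (2 * (st.Y i j z - B.x0 j)) • fderiv ℝ (st.Y i j) z)
        + (4 : ℝ) • fderiv ℝ (st.Y i 0) z) z := by
    rw [e]
    refine HasFDerivAt.congr_of_eventuallyEq h3 (Filter.Eventually.of_forall fun y => ?_)
    show _ = (∑ j, (st.Y i j y - B.x0 j) ^ 2) * (1 / 2) + 4 * (st.Y i 0 y - B.x0 0)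
    ring
  unfold dx
  rw [h4.fderiv]
  simp only [Fin.sum_univ_three, _root_.add_apply, _root_.smul_apply,
    smul_eq_mul]
  ring

/-- entries of `DY` are within `1/19` of the identity -/
theorem DY_entry (st : Stage B) (i : Fin 2) (z : X)
    (hDY : ∀ v : V3, ‖(fun j => ∑ k, dx k (st.Y i j) z * v k) - v‖ ≤ 1 / 19 * ‖v‖)
    (j k : Fin 3) : |dx k (st.Y i j) z - (if j = k then 1 else 0)| ≤ 1 / 19 := by
  have h := hDY (Pi.single k 1)
  have h1 : ‖(Pi.single k (1 : ℝ) : V3)‖ ≤ 1 := by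
    rw [pi_norm_le_iff_of_nonneg (by norm_num)]
    intro m
    by_cases hm : m = k
    · subst hm; simp
    · simp [hm]
  have h2 := norm_le_pi_norm
    ((fun j => ∑ k', dx k' (st.Y i j) z * (Pi.single k (1 : ℝ) : V3) k') - Pi.single k (1 : ℝ)) j
  rw [Real.norm_eq_abs] at h2
  have h3 : ((fun j => ∑ k', dx k' (st.Y i j) z * (Pi.single k (1 : ℝ) : V3) k')
      - (Pi.single k (1 : ℝ) : V3)) j = dx k (st.Y i j) z - (if j = k then 1 else 0) := by
    simp [Pi.sub_apply, Pi.single_apply]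
  rw [h3] at h2
  calc _ ≤ _ := h2
    _ ≤ _ := h
    _ ≤ 1 / 19 * 1 := by gcongr
    _ = _ := by norm_num

theorem Ypos (st : Stage B) (i : Fin 2) (z : X) (hx : ‖z.2 - B.x0‖ ≤ 1)
    (hN : ‖vec (st.Y i) z - z.2‖ ≤ 1 / 10) (j : Fin 3) : |st.Y i j z - B.x0 j| ≤ 11 / 10 := by
  have h1 := (norm_le_pi_norm (vec (st.Y i) z - z.2) j).trans hN
  have h2 := (norm_le_pi_norm (z.2 - B.x0) j).trans hx
  rw [Real.norm_eq_abs] at h1 h2
  have e1 : (vec (st.Y i) z - z.2) j = st.Y i j z - z.2 j := rfl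
  have e2 : (z.2 - B.x0) j = z.2 j - B.x0 j := rfl
  rw [e1] at h1
  rw [e2] at h2
  rw [abs_le] at *
  constructor <;> linarith [h1.1, h1.2, h2.1, h2.2]

theorem kp_of_lt {a : Fin 4} (h : a.val < 3) : kp a = ⟨a.val, h⟩ := by
  unfold kp
  rw [dif_pos h]

theorem kp_of_not_lt {a : Fin 4} (h : ¬ a.val < 3) : kp a = 0 := by
  unfold kp
  rw [dif_neg h]

/-- product bound -/
theorem abs_mul_le_aux {a b A C : ℝ} (ha : |a| ≤ A) (hb : |b| ≤ C) : |a * b| ≤ A * C := by
  rw [abs_mul]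
  exact mul_le_mul ha hb (abs_nonneg _) ((abs_nonneg _).trans ha)

theorem h_grad_low_aux (st : Stage B) (i : Fin 2) (a : Fin 4) (z : X)
    (hx : ‖z.2 - B.x0‖ ≤ 1) (hN : ‖vec (st.Y i) z - z.2‖ ≤ 1 / 10)
    (hDY : ∀ v : V3, ‖(fun j => ∑ k, dx k (st.Y i j) z * v k) - v‖ ≤ 1 / 19 * ‖v‖) :
    1 / 2 ≤ dx (kp a) (st.h i a) z := by
  have hE := DY_entry st i z hDY
  by_cases h : a.val < 3
  · rw [dx_h_of_lt st i h, kp_of_lt h]
    have := hE ⟨a.val, h⟩ ⟨a.val, h⟩
    rw [if_pos rfl, abs_le] at this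
    linarith [this.1]
  · rw [dx_h_of_not_lt st i h, kp_of_not_lt h]
    have hp := Ypos st i z hx hN
    have e0 := hE 0 0
    have e1 := hE 1 0
    have e2 := hE 2 0
    rw [if_pos rfl] at e0
    rw [if_neg (by decide), sub_zero] at e1 e2
    have e0' : |dx 0 (st.Y i 0) z| ≤ 20 / 19 := by
      rw [abs_le] at *
      constructor <;> linarith [e0.1, e0.2]
    have p0 := abs_mul_le_aux (hp 0) e0'
    have p1 := abs_mul_le_aux (hp 1) e1
    have p2 := abs_mul_le_aux (hp 2) e2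
    rw [Fin.sum_univ_three]
    rw [abs_le] at e0 p0 p1 p2
    linarith [e0.1, p0.1, p1.1, p2.1]

theorem h_grad_up_aux (st : Stage B) (i : Fin 2) (a : Fin 4) (k : Fin 3) (z : X)
    (hx : ‖z.2 - B.x0‖ ≤ 1) (hN : ‖vec (st.Y i) z - z.2‖ ≤ 1 / 10)
    (hDY : ∀ v : V3, ‖(fun j => ∑ k, dx k (st.Y i j) z * v k) - v‖ ≤ 1 / 19 * ‖v‖) :
    |dx k (st.h i a) z| ≤ 8 := by
  have hE := DY_entry st i z hDY
  have hE' : ∀ j, |dx k (st.Y i j) z| ≤ 20 / 19 := by
    intro j
    have := hE j k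
    rw [abs_le] at *
    split_ifs at this <;> constructor <;> linarith [this.1, this.2]
  by_cases h : a.val < 3
  · rw [dx_h_of_lt st i h]
    exact (hE' _).trans (by norm_num)
  · rw [dx_h_of_not_lt st i h]
    have hp := Ypos st i z hx hN
    have p0 := abs_mul_le_aux (hp 0) (hE' 0)
    have p1 := abs_mul_le_aux (hp 1) (hE' 1)
    have p2 := abs_mul_le_aux (hp 2) (hE' 2)
    have p3 := hE' 0
    rw [Fin.sum_univ_three]
    rw [abs_le] at *
    constructor <;> linarith [p0.1, p0.2, p1.1, p1.2, p2.1, p2.2, p3.1, p3.2]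

theorem NN_pos_aux (st : Stage B) (z : X)
    (hDY : ∀ v : V3, ‖(fun j => ∑ k, dx k (st.Y 0 j) z * v k) - v‖ ≤ 1 / 19 * ‖v‖)
    (hne : vec (st.Y 0) z ≠ vec (st.Y 1) z) : 0 < ∑ a, st.NN a z := by
  have h0 : 0 ≤ ∑ a, st.NN a z := Finset.sum_nonneg fun a _ => st.NN_nonneg a z
  rcases h0.lt_or_eq with h | h
  · exact h
  exfalso
  apply hne
  have hz : ∀ a, st.NN a z = 0 := by
    intro a
    exact (Finset.sum_eq_zero_iff_of_nonneg (fun a _ => st.NN_nonneg a z)).1 h.symm a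
      (Finset.mem_univ a)
  have hg : ∀ a k, dx k (st.h 0 a) z = dx k (st.h 1 a) z := by
    intro a k
    have h1 := hz a
    unfold Stage.NN at h1
    have h2 : ∑ k, (dx k (st.h 0 a) z - dx k (st.h 1 a) z) ^ 2 = 0 := by
      exact pow_eq_zero_iff (n := 2) (by norm_num) |>.1 h1
    have h3 := (Finset.sum_eq_zero_iff_of_nonneg (fun k _ => sq_nonneg _)).1 h2 k
      (Finset.mem_univ k)
    have h4 := pow_eq_zero_iff (n := 2) (by norm_num) |>.1 h3
    linarith
  have hY : ∀ j k, dx k (st.Y 0 j) z = dx k (st.Y 1 j) z := by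
    intro j k
    have hj : (⟨j.val, by omega⟩ : Fin 4).val < 3 := j.2
    have := hg ⟨j.val, by omega⟩ k
    rw [dx_h_of_lt st 0 hj, dx_h_of_lt st 1 hj] at this
    exact this
  have h3 : ∀ k, ∑ j, (st.Y 0 j z - st.Y 1 j z) * dx k (st.Y 0 j) z = 0 := by
    intro k
    have := hg 3 k
    rw [dx_h_of_not_lt st 0 (by decide), dx_h_of_not_lt st 1 (by decide)] at this
    simp only [Fin.sum_univ_three, ← hY] at this ⊢
    linarith
  -- the transpose of `DY` is injective
  have hE := DY_entry st 0 z hDY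
  set v : V3 := vec (st.Y 0) z - vec (st.Y 1) z with hv
  have hvj : ∀ j, v j = st.Y 0 j z - st.Y 1 j z := fun j => rfl
  have hvn : ‖v‖ ≤ 3 / 19 * ‖v‖ := by
    rw [pi_norm_le_iff_of_nonneg (by positivity)]
    intro k
    have e : v k = ∑ j, v j * ((if j = k then 1 else 0) - dx k (st.Y 0 j) z) := by
      have := h3 k
      simp only [← hvj] at this
      simp only [mul_sub, Finset.sum_sub_distrib, this, sub_zero]
      simp
    rw [e, Real.norm_eq_abs]
    refine (Finset.abs_sum_le_sum_abs _ _).trans ?_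
    have hb : ∀ j ∈ (Finset.univ : Finset (Fin 3)),
        |v j * ((if j = k then 1 else 0) - dx k (st.Y 0 j) z)| ≤ ‖v‖ * (1 / 19) := by
      intro j _
      refine abs_mul_le_aux (norm_le_pi_norm v j) ?_
      rw [abs_sub_comm]
      exact hE j k
    refine (Finset.sum_le_sum hb).trans ?_
    simp only [Finset.sum_const, Finset.card_univ, Fintype.card_fin, nsmul_eq_mul]
    apply le_of_eq
    push_cast
    ring
  have : ‖v‖ = 0 := by
    have := norm_nonneg v
    linarith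
  have hv0 : v = 0 := norm_eq_zero.1 this
  exact sub_eq_zero.1 hv0

end H37.MHD
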