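import Mathlib

/-!
Graph sheaves: for a finite graph in container form (each vertex has a finite nonempty set of
incoming edges), the category of families of sets `F v` with `F v ≃ ∏ F (src e)`.
-/

open CategoryTheory

namespace PSnum

structure Gr where
  V : Type
  In : V → Type
  src : ∀ {v : V}, In v → V
  [fV : Fintype V]
  [dV : DecidableEq V]
  [fIn : ∀ v, Fintype (In v)]
  [ne : ∀ v, Nonempty (In v)]

attribute [instance] Gr.fV Gr.dV Gr.fIn Gr.ne

variable {G : Gr}

/-- backward paths from `v` to `u` (i.e. paths of the graph from `u` to `v`). -/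
inductive Pth (G : Gr) (u : G.V) : G.V → Type
  | nil : Pth G u u
  | cons {v : G.V} (e : G.In v) (p : Pth G u (G.src e)) : Pth G u v

namespace Pth

def len {u : G.V} : ∀ {v : G.V}, Pth G u v → ℕ
  | _, .nil => 0
  | _, .cons _ p => p.len + 1

def app {u w : G.V} : ∀ {v : G.V}, Pth G w v → Pth G u w → Pth G u v
  | _, .nil, q => q
  | _, .cons e p, q => .cons e (p.app q)

@[simp] theorem len_nil {u : G.V} : (Pth.nil : Pth G u u).len = 0 := rfl
@[simp] theorem len_cons {u v : G.V} (e : G.In v) (p : Pth G u (G.src e)) :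
    (Pth.cons e p).len = p.len + 1 := rfl
@[simp] theorem nil_app {u w : G.V} (q : Pth G u w) : (Pth.nil).app q = q := rfl
@[simp] theorem cons_app {u w v : G.V} (e : G.In v) (p : Pth G w (G.src e)) (q : Pth G u w) :
    (Pth.cons e p).app q = Pth.cons e (p.app q) := rfl

@[simp] theorem app_nil {u : G.V} : ∀ {v : G.V} (p : Pth G u v), p.app .nil = p
  | _, .nil => rfl
  | _, .cons e p => by simp [app_nil p]

theorem app_assoc {u w x : G.V} : ∀ {v : G.V} (p : Pth G x v) (q : Pth G w x) (r : Pth G u w),
    (p.app q).app r = p.app (q.app r)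
  | _, .nil, _, _ => rfl
  | _, .cons e p, q, r => by simp [app_assoc p]

@[simp] theorem len_app {u w : G.V} : ∀ {v : G.V} (p : Pth G w v) (q : Pth G u w),
    (p.app q).len = p.len + q.len
  | _, .nil, _ => by simp
  | _, .cons e p, q => by simp [len_app p]; omega

/-- left cancellation with lengths. -/
theorem app_inj {u : G.V} : ∀ {v w w' : G.V} (p : Pth G w v) (q : Pth G u w)
    (p' : Pth G w' v) (q' : Pth G u w'), p.len = p'.len → p.app q = p'.app q' →
    (⟨w, p, q⟩ : Σ w, Pth G w v × Pth G u w) = ⟨w', p', q'⟩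
  | _, _, _, .nil, q, .nil, q', _, h => by
      simp at h; subst h; rfl
  | _, _, _, .nil, q, .cons e p', q', hl, h => by simp at hl
  | _, _, _, .cons e p, q, .nil, q', hl, h => by simp at hl
  | _, _, _, .cons e p, q, .cons e' p', q', hl, h => by
      simp only [cons_app, Pth.cons.injEq] at h
      obtain ⟨h1, h2⟩ := h
      subst h1
      have h2 := eq_of_heq h2
      have := app_inj p q p' q' (by simpa using hl) h2
      cases this
      rfl

/-- initial segments. -/
theorem app_pfx {u : G.V} : ∀ {v w w' : G.V} (p : Pth G w v) (q : Pth G u w)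
    (p' : Pth G w' v) (q' : Pth G u w'), p.len ≤ p'.len → p.app q = p'.app q' →
    ∃ r : Pth G w' w, p' = p.app r ∧ q = r.app q'
  | _, _, _, .nil, q, p', q', _, h => ⟨p', by simpa using h⟩
  | _, _, _, .cons e p, q, .nil, q', hl, h => by simp at hl
  | _, _, _, .cons e p, q, .cons e' p', q', hl, h => by
      simp only [cons_app, Pth.cons.injEq] at h
      obtain ⟨h1, h2⟩ := h
      subst h1
      have h2 := eq_of_heq h2
      obtain ⟨r, hr, hr'⟩ := app_pfx p q p' q' (by simpa using hl) h2
      exact ⟨r, by rw [hr]; rfl, hr'⟩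

/-- splitting off an initial segment. -/
theorem exists_split {u : G.V} : ∀ {v : G.V} (p : Pth G u v) (n : ℕ), n ≤ p.len →
    ∃ (w : G.V) (a : Pth G w v) (b : Pth G u w), a.len = n ∧ p = a.app b
  | v, p, 0, _ => ⟨v, .nil, p, rfl, rfl⟩
  | _, .nil, n+1, h => by simp at h
  | _, .cons e p, n+1, h => by
      obtain ⟨w, a, b, ha, hp⟩ := exists_split p n (by simpa using h)
      exact ⟨w, .cons e a, b, by simp [ha], by simp [hp]⟩

theorem app_right_cancel {u w v : G.V} (p p' : Pth G w v) (q : Pth G u w)
    (h : p.app q = p'.app q) : p = p' := by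
  have hl : p.len = p'.len := by
    have := congrArg len h
    simpa using this
  have := app_inj p q p' q hl h
  simp only [Sigma.mk.injEq, heq_eq_eq, Prod.mk.injEq, true_and] at this
  exact this.1

end Pth

/-- Paths into `v` with arbitrary start. -/
abbrev Tip (G : Gr) (v : G.V) := Σ u : G.V, Pth G u v

def consEmb (v : G.V) : (Σ e : G.In v, Tip G (G.src e)) ↪ Tip G v where
  toFun x := ⟨x.2.1, .cons x.1 x.2.2⟩
  inj' := by
    rintro ⟨e, u, p⟩ ⟨e', u', p'⟩ h
    simp only [Sigma.mk.injEq] at h
    obtain ⟨h1, h2⟩ := h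
    subst h1
    simp only [heq_eq_eq, Pth.cons.injEq] at h2
    obtain ⟨h2, h3⟩ := h2
    subst h2
    cases h3
    rfl

/-- All paths of length `N` into `v`. -/
def paths (G : Gr) : ℕ → ∀ v : G.V, Finset (Tip G v)
  | 0, v => {⟨v, .nil⟩}
  | N + 1, v => ((Finset.univ : Finset (G.In v)).sigma (fun e => paths G N (G.src e))).map
      (consEmb v)

theorem mem_paths : ∀ {N : ℕ} {v : G.V} {x : Tip G v}, x ∈ paths G N v ↔ x.2.len = N
  | 0, v, ⟨u, p⟩ => by
      cases p with
      | nil => simp [paths]
      | cons e p => 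
        simp only [paths, Finset.mem_singleton, Pth.len_cons]
        constructor
        · intro h
          cases h
        · intro h; omega
  | N + 1, v, ⟨u, p⟩ => by
      cases p with
      | nil => 
        simp only [paths, Finset.mem_map, Finset.mem_sigma, Finset.mem_univ, true_and,
          Pth.len_nil]
        constructor
        · rintro ⟨⟨e, u', p'⟩, _, h⟩
          have : (Pth.cons e p').len = 0 := congrArg (fun x : Tip G _ => x.2.len) h
          simp at this
        · intro h; omega
      | cons e p =>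
        simp only [paths, Finset.mem_map, Finset.mem_sigma, Finset.mem_univ, true_and,
          Pth.len_cons]
        constructor
        · rintro ⟨⟨e', u', p'⟩, h1, h⟩
          have h2 := mem_paths.1 h1
          have : (consEmb v) ⟨e', u', p'⟩ = (consEmb v) ⟨e, u, p⟩ := h
          have := (consEmb v).injective this
          cases this
          simpa using h2
        · intro h
          refine ⟨⟨e, u, p⟩, mem_paths.2 (by simpa using h), rfl⟩

theorem sum_paths_succ {M : Type*} [AddCommMonoid M] (N : ℕ) (v : G.V) (g : Tip G v → M) :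
    ∑ x ∈ paths G (N + 1) v, g x
      = ∑ e : G.In v, ∑ x ∈ paths G N (G.src e), g ⟨x.1, .cons e x.2⟩ := by
  rw [paths, Finset.sum_map, Finset.sum_sigma]
  rfl

theorem paths_nonempty : ∀ (N : ℕ) (v : G.V), (paths G N v).Nonempty
  | 0, v => ⟨_, Finset.mem_singleton_self _⟩
  | N + 1, v => by
      obtain ⟨e⟩ := G.ne v
      obtain ⟨x, hx⟩ := paths_nonempty N (G.src e)
      exact ⟨⟨x.1, .cons e x.2⟩, mem_paths.2 (by simpa using mem_paths.1 hx)⟩

/-- Sheaves. -/
structure Shf (G : Gr) where
  F : G.V → Type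
  res : ∀ {v : G.V} (e : G.In v), F v → F (G.src e)
  glue : ∀ {v : G.V}, (∀ e : G.In v, F (G.src e)) → F v
  res_glue : ∀ {v : G.V} (x : ∀ e : G.In v, F (G.src e)) (e : G.In v), res e (glue x) = x e
  glue_res : ∀ {v : G.V} (x : F v), glue (fun e => res e x) = x

namespace Shf

theorem ext_res (A : Shf G) {v : G.V} (x y : A.F v) (h : ∀ e, A.res e x = A.res e y) : x = y := by
  rw [← A.glue_res x, ← A.glue_res y]
  congr 1
  funext e
  exact h e

@[ext] structure Hom (A B : Shf G) where
  app : ∀ v, A.F v → B.F v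
  nat : ∀ {v : G.V} (e : G.In v) (x : A.F v), app _ (A.res e x) = B.res e (app v x)

instance : Category (Shf G) where
  Hom := Hom
  id A := ⟨fun _ x => x, fun _ _ => rfl⟩
  comp f g := ⟨fun v x => g.app v (f.app v x), fun e x => by rw [f.nat, g.nat]⟩

@[ext] theorem hom_ext {A B : Shf G} (f g : A ⟶ B) (h : ∀ v x, f.app v x = g.app v x) : f = g := by
  apply Hom.ext
  funext v x
  exact h v x

@[simp] theorem id_app (A : Shf G) (v : G.V) (x : A.F v) : Hom.app (𝟙 A) v x = x := rfl
@[simp] theorem comp_app {A B C : Shf G} (f : A ⟶ B) (g : B ⟶ C) (v : G.V) (x : A.F v) :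
    Hom.app (f ≫ g) v x = g.app v (f.app v x) := rfl

/-- restriction along a path. -/
def resP (A : Shf G) {u : G.V} : ∀ {v : G.V}, Pth G u v → A.F v → A.F u
  | _, .nil, x => x
  | _, .cons e p, x => A.resP p (A.res e x)

@[simp] theorem resP_nil (A : Shf G) {u : G.V} (x : A.F u) : A.resP .nil x = x := rfl
@[simp] theorem resP_cons (A : Shf G) {u v : G.V} (e : G.In v) (p : Pth G u (G.src e))
    (x : A.F v) : A.resP (.cons e p) x = A.resP p (A.res e x) := rfl

theorem resP_app (A : Shf G) {u w : G.V} : ∀ {v : G.V} (p : Pth G w v) (q : Pth G u w)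
    (x : A.F v), A.resP (p.app q) x = A.resP q (A.resP p x)
  | _, .nil, _, _ => rfl
  | _, .cons e p, q, x => by simp [resP_app A p]

theorem nat_resP {A B : Shf G} (f : A ⟶ B) {u : G.V} : ∀ {v : G.V} (p : Pth G u v)
    (x : A.F v), f.app u (A.resP p x) = B.resP p (f.app v x)
  | _, .nil, _ => rfl
  | _, .cons e p, x => by rw [resP_cons, nat_resP f p, f.nat]; rfl

theorem ext_resP (A : Shf G) : ∀ (N : ℕ) {v : G.V} (x y : A.F v)
    (_ : ∀ p ∈ paths G N v, A.resP p.2 x = A.resP p.2 y), x = y
  | 0, v, x, y, h => h ⟨v, .nil⟩ (Finset.mem_singleton_self _)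
  | N + 1, v, x, y, h => by
      apply A.ext_res
      intro e
      apply A.ext_resP N
      intro p hp
      exact h ⟨p.1, .cons e p.2⟩ (mem_paths.2 (by simpa using mem_paths.1 hp))

theorem exists_glue (A : Shf G) : ∀ (N : ℕ) {v : G.V}
    (y : ∀ p : Tip G v, p ∈ paths G N v → A.F p.1),
    ∃ x : A.F v, ∀ (p : Tip G v) (hp : p ∈ paths G N v), A.resP p.2 x = y p hp
  | 0, v, y => ⟨y ⟨v, .nil⟩ (Finset.mem_singleton_self _), by
      intro p hp
      have hp' := hp
      simp only [paths, Finset.mem_singleton] at hp'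
      subst hp'
      rfl⟩
  | N + 1, v, y => by
      have := fun e : G.In v => A.exists_glue N (v := G.src e)
        (fun p hp => y ⟨p.1, .cons e p.2⟩ (mem_paths.2 (by simpa using mem_paths.1 hp)))
      choose x hx using this
      refine ⟨A.glue x, ?_⟩
      rintro ⟨u, p⟩ hp
      have hp' := mem_paths.1 hp
      cases p with
      | nil => simp at hp'
      | cons e p =>
        simp only [resP_cons, A.res_glue]
        exact hx e ⟨u, p⟩ (mem_paths.2 (by simpa using hp'))

/-- local membership -/
inductive Mem (A : Shf G) (S : ∀ v, A.F v → Prop) : ∀ v, A.F v → Prop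
  | base {v : G.V} {x : A.F v} : S v x → Mem A S v x
  | step {v : G.V} {x : A.F v} : (∀ e, Mem A S _ (A.res e x)) → Mem A S v x

def ResClosed (A : Shf G) (S : ∀ v, A.F v → Prop) : Prop :=
  ∀ {v : G.V} (e : G.In v) (x : A.F v), S v x → S _ (A.res e x)

theorem ResClosed.resP {A : Shf G} {S : ∀ v, A.F v → Prop} (hS : A.ResClosed S) {u : G.V} :
    ∀ {v : G.V} (p : Pth G u v) {x : A.F v}, S v x → S u (A.resP p x)
  | _, .nil, _, h => h
  | _, .cons e p, _, h => ResClosed.resP hS p (hS e _ h)

theorem Mem.res {A : Shf G} {S : ∀ v, A.F v → Prop} (hS : A.ResClosed S) {v : G.V}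
    (e : G.In v) {x : A.F v} (h : Mem A S v x) : Mem A S _ (A.res e x) := by
  cases h with
  | base h => exact .base (hS e _ h)
  | step h => exact h e

theorem mem_resClosed {A : Shf G} {S : ∀ v, A.F v → Prop} (hS : A.ResClosed S) :
    A.ResClosed (Mem A S) := fun e _ h => Mem.res hS e h

/-- local membership holds at a uniform depth -/
theorem Mem.depth {A : Shf G} {S : ∀ v, A.F v → Prop} (hS : A.ResClosed S) {v : G.V}
    {x : A.F v} (h : Mem A S v x) :
    ∃ N, ∀ {u : G.V} (p : Pth G u v), N ≤ p.len → S u (A.resP p x) := by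
  induction h with
  | base h => exact ⟨0, fun p _ => hS.resP p h⟩
  | step h ih =>
    choose N hN using ih
    refine ⟨(Finset.univ.sup N) + 1, ?_⟩
    intro u p hp
    cases p with
    | nil => simp at hp
    | cons e p =>
      refine hN e p ?_
      have := Finset.le_sup (f := N) (Finset.mem_univ e)
      rw [Pth.len_cons] at hp
      omega

theorem mem_of_depth {A : Shf G} {S : ∀ v, A.F v → Prop} : ∀ (N : ℕ) {v : G.V}
    {x : A.F v} (_ : ∀ p ∈ paths G N v, Mem A S _ (A.resP p.2 x)), Mem A S v x
  | 0, v, x, h => h ⟨v, .nil⟩ (Finset.mem_singleton_self _)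
  | N + 1, v, x, h => by
      apply Mem.step
      intro e
      apply mem_of_depth N
      intro p hp
      exact h ⟨p.1, .cons e p.2⟩ (mem_paths.2 (by simpa using mem_paths.1 hp))

theorem Mem.mono {A : Shf G} {S S' : ∀ v, A.F v → Prop} (h : ∀ v x, S v x → S' v x) {v : G.V}
    {x : A.F v} (hx : Mem A S v x) : Mem A S' v x := by
  induction hx with
  | base h1 => exact .base (h _ _ h1)
  | step _ ih => exact .step ih

theorem Mem.bind {A : Shf G} {S S' : ∀ v, A.F v → Prop} (h : ∀ v x, S v x → Mem A S' v x)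
    {v : G.V} {x : A.F v} (hx : Mem A S v x) : Mem A S' v x := by
  induction hx with
  | base h1 => exact h _ _ h1
  | step _ ih => exact .step ih

/-- the subsheaf of locally-`S` elements -/
def sub (A : Shf G) (S : ∀ v, A.F v → Prop) (hS : A.ResClosed S) : Shf G where
  F v := {x : A.F v // Mem A S v x}
  res e x := ⟨A.res e x.1, x.2.res hS e⟩
  glue x := ⟨A.glue (fun e => (x e).1), .step (fun e => by rw [A.res_glue]; exact (x e).2)⟩
  res_glue x e := Subtype.ext (by simp [A.res_glue])
  glue_res x := Subtype.ext (by simp [A.glue_res])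

def subι (A : Shf G) (S : ∀ v, A.F v → Prop) (hS : A.ResClosed S) : A.sub S hS ⟶ A where
  app _ x := x.1
  nat _ _ := rfl

theorem sub_resP (A : Shf G) (S : ∀ v, A.F v → Prop) (hS : A.ResClosed S) {u : G.V}
    {v : G.V} (p : Pth G u v) (x : (A.sub S hS).F v) :
    ((A.sub S hS).resP p x).1 = A.resP p x.1 :=
  nat_resP (A.subι S hS) p x

theorem isIso_of_bijective {A B : Shf G} (f : A ⟶ B) (h : ∀ v, Function.Bijective (f.app v)) :
    IsIso f := by
  let g : B ⟶ A := ⟨fun v => (Equiv.ofBijective _ (h v)).symm, by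
    intro v e x
    apply (h _).1
    rw [f.nat]
    have h1 : ∀ v x, f.app v ((Equiv.ofBijective _ (h v)).symm x) = x := fun v x =>
      (Equiv.ofBijective _ (h v)).apply_symm_apply x
    rw [h1, h1]⟩
  refine ⟨g, ?_, ?_⟩
  · ext v x
    exact (Equiv.ofBijective _ (h v)).symm_apply_apply x
  · ext v x
    exact (Equiv.ofBijective _ (h v)).apply_symm_apply x

theorem mono_of_injective {A B : Shf G} (f : A ⟶ B) (h : ∀ v, Function.Injective (f.app v)) :
    Mono f := by
  constructor
  intro Z g k hgk
  ext v x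
  apply h
  have := congrArg (fun t => Hom.app t v x) hgk
  exact this

theorem surjective_of_isIso {A B : Shf G} (f : A ⟶ B) [IsIso f] (v : G.V) :
    Function.Surjective (f.app v) := by
  intro y
  refine ⟨(inv f).app v y, ?_⟩
  have : (inv f ≫ f).app v y = y := by rw [IsIso.inv_hom_id]; rfl
  exact this

theorem injective_of_isIso {A B : Shf G} (f : A ⟶ B) [IsIso f] (v : G.V) :
    Function.Injective (f.app v) := by
  intro x y h
  have hx : (f ≫ inv f).app v x = x := by rw [IsIso.hom_inv_id]; rfl
  have hy : (f ≫ inv f).app v y = y := by rw [IsIso.hom_inv_id]; rfl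
  rw [← hx, ← hy, comp_app, comp_app, h]

end Shf

end PSnum
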