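import Pool.Agent.H19.PSTrans

open CategoryTheory

namespace PSnum

section ZAct

universe v u

/-- an action of `ℤ` on an object -/
structure ZAct {C : Type u} [Category.{v} C] (T : C) where
  z : ℤ → (T ⟶ T)
  z_zero : z 0 = 𝟙 T
  z_add : ∀ a b, z (a + b) = z a ≫ z b

end ZAct

/-- an action of `ℤ` on an abelian group -/
structure TAct (M : Type) [AddCommGroup M] where
  tp : ℤ → M →+ M
  tp_zero : ∀ x, tp 0 x = x
  tp_add : ∀ a b x, tp (a + b) x = tp a (tp b x)

variable {G H : Gr}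

section acP

variable {Q : G.V → Type} (ac : ∀ {v : G.V} (e : G.In v), Q v → Q (G.src e))

def acP {u : G.V} : ∀ {v : G.V}, Pth G u v → Q v → Q u
  | _, .nil, q => q
  | _, .cons e p, q => acP p (ac e q)

theorem acP_app {u w : G.V} : ∀ {v : G.V} (p : Pth G w v) (r : Pth G u w) (q : Q v),
    acP ac (p.app r) q = acP ac r (acP ac p q)
  | _, .nil, _, _ => rfl
  | _, .cons e p, r, q => by simp [acP, acP_app p]

end acP

structure Coord {G : Gr} (T : Shf G) (Z : ZAct T) where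
  Q : G.V → Type
  [fQ : ∀ v, Fintype (Q v)]
  [neQ : ∀ v, Nonempty (Q v)]
  ac : ∀ {v : G.V} (e : G.In v), Q v → Q (G.src e)
  a : ∀ {v : G.V}, Q v → T.F v
  f : ∀ {v : G.V}, G.In v → Q v → ℤ
  rel : ∀ {v : G.V} (e : G.In v) (q : Q v),
    T.res e (a q) = (Z.z (f e q)).app _ (a (ac e q))
  k : ℕ
  sync : ∀ {u v : G.V} (p : Pth G u v), k ≤ p.len → ∀ q q' : Q v, acP ac p q = acP ac p q'
  free : ∀ {v : G.V} (x : T.F v) (n : ℤ), (Z.z n).app v x = x → n = 0
  gen : ∀ {v : G.V} (h : T.F v) (q : Q v), ∃ N, ∀ {u : G.V} (p : Pth G u v), N ≤ p.len →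
    ∃ n, T.resP p h = (Z.z n).app _ (a (acP ac p q))

attribute [instance] Coord.fQ Coord.neQ

namespace ZAct

variable {T : Shf G} (Z : ZAct T)

theorem zero_app {v : G.V} (x : T.F v) : (Z.z 0).app v x = x := by
  rw [Z.z_zero]; rfl

theorem add_app {v : G.V} (x : T.F v) (a b : ℤ) :
    (Z.z (a + b)).app v x = (Z.z a).app v ((Z.z b).app v x) := by
  rw [add_comm, Z.z_add]; rfl

theorem inj {v : G.V} (n : ℤ) {x x' : T.F v} (h : (Z.z n).app v x = (Z.z n).app v x') :
    x = x' := by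
  have := congrArg ((Z.z (-n)).app v) h
  rw [← Z.add_app, ← Z.add_app] at this
  simpa [Z.zero_app] using this

end ZAct

theorem sum_paths_succ' {M : Type*} [AddCommMonoid M] : ∀ (N : ℕ) (v : G.V) (g : Tip G v → M),
    ∑ x ∈ paths G (N + 1) v, g x
      = ∑ x ∈ paths G N v, ∑ e : G.In x.1, g ⟨G.src e, x.2.app (.cons e .nil)⟩
  | 0, v, g => by
      rw [sum_paths_succ]
      simp [paths]
  | N + 1, v, g => by
      rw [sum_paths_succ, sum_paths_succ N]
      refine Finset.sum_congr rfl (fun e _ => ?_)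
      rw [sum_paths_succ' N]
      rfl

namespace Coord

variable {T : Shf G} {Z : ZAct T} (K : Coord T Z)

include K in
theorem z_unique {v : G.V} {x : T.F v} {m n : ℤ} (h : (Z.z m).app v x = (Z.z n).app v x) :
    m = n := by
  have h1 : (Z.z (m - n)).app v x = x := by
    apply Z.inj n
    rw [← Z.add_app, ← h]
    congr 2
    ring
  have := K.free x _ h1
  omega

def fP {u : G.V} : ∀ {v : G.V}, Pth G u v → K.Q v → ℤ
  | _, .nil, _ => 0
  | _, .cons e p, q => K.f e q + fP p (K.ac e q)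

theorem relP {u : G.V} : ∀ {v : G.V} (p : Pth G u v) (q : K.Q v),
    T.resP p (K.a q) = (Z.z (K.fP p q)).app _ (K.a (acP K.ac p q))
  | _, .nil, q => by simp [fP, Z.zero_app, acP]
  | _, .cons e p, q => by
      rw [Shf.resP_cons, K.rel, ← Shf.nat_resP, relP p, ← Z.add_app]
      rfl

noncomputable def base (v : G.V) : K.Q v := Classical.choice (K.neQ v)

noncomputable def can {u v : G.V} (p : Pth G u v) : K.Q u := acP K.ac p (K.base v)

theorem can_app {u w v : G.V} (p : Pth G w v) (r : Pth G u w) :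
    K.can (p.app r) = acP K.ac r (K.can p) := acP_app _ _ _ _

theorem acP_eq_can {u v : G.V} (p : Pth G u v) (hp : K.k ≤ p.len) (q : K.Q v) :
    acP K.ac p q = K.can p := K.sync p hp _ _

theorem can_cons {v : G.V} (e : G.In v) {u : G.V} (p : Pth G u (G.src e)) (hp : K.k ≤ p.len) :
    K.can (.cons e p) = K.can p := K.sync p hp _ _

/-- good depth -/
def Good {v : G.V} (h : T.F v) (N : ℕ) : Prop :=
  K.k ≤ N ∧ ∀ {u : G.V} (p : Pth G u v), N ≤ p.len → ∃ n, T.resP p h = (Z.z n).app _ (K.a (K.can p))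

theorem exists_good {v : G.V} (h : T.F v) : ∃ N, K.Good h N := by
  obtain ⟨N, hN⟩ := K.gen h (K.base v)
  exact ⟨max K.k N, le_max_left _ _, fun p hp => hN p (by omega)⟩

theorem Good.mono {K : Coord T Z} {v : G.V} {h : T.F v} {N N' : ℕ} (hg : K.Good h N)
    (hN : N ≤ N') : K.Good h N' :=
  ⟨hg.1.trans hN, fun p hp => hg.2 p (hN.trans hp)⟩

theorem Good.res {K : Coord T Z} {v : G.V} {h : T.F v} {N : ℕ} (hg : K.Good h N) (e : G.In v) :
    K.Good (T.res e h) N := by
  refine ⟨hg.1, fun {u} p hp => ?_⟩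
  obtain ⟨n, hn⟩ := hg.2 (.cons e p) (by simp; omega)
  refine ⟨n, ?_⟩
  rw [← K.can_cons e p (hg.1.trans hp), ← hn]
  rfl

open Classical in
noncomputable def nn {v : G.V} (h : T.F v) {u : G.V} (p : Pth G u v) : ℤ :=
  if ex : ∃ n, T.resP p h = (Z.z n).app _ (K.a (K.can p)) then ex.choose else 0

theorem nn_spec {v : G.V} (h : T.F v) {u : G.V} (p : Pth G u v)
    (ex : ∃ n, T.resP p h = (Z.z n).app _ (K.a (K.can p))) :
    T.resP p h = (Z.z (K.nn h p)).app _ (K.a (K.can p)) := by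
  rw [nn, dif_pos ex]
  exact ex.choose_spec

theorem nn_eq {v : G.V} (h : T.F v) {u : G.V} (p : Pth G u v) (n : ℤ)
    (hn : T.resP p h = (Z.z n).app _ (K.a (K.can p))) : K.nn h p = n := by
  apply K.z_unique (x := K.a (K.can p))
  rw [← K.nn_spec h p ⟨n, hn⟩, hn]

section val

variable {M : Type} [AddCommGroup M] (A : TAct M) (b : ∀ {v : G.V}, K.Q v → M)
  (hb : ∀ {v : G.V} (q : K.Q v), b q = ∑ e, A.tp (K.f e q) (b (K.ac e q)))

noncomputable def valN (N : ℕ) {v : G.V} (h : T.F v) : M :=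
  ∑ p ∈ paths G N v, A.tp (K.nn h p.2) (b (K.can p.2))

include hb

theorem valN_succ {N : ℕ} {v : G.V} {h : T.F v} (hg : K.Good h N) :
    K.valN A b (N + 1) h = K.valN A b N h := by
  rw [valN, sum_paths_succ', valN]
  refine Finset.sum_congr rfl (fun x hx => ?_)
  rw [mem_paths] at hx
  rw [hb (K.can x.2), map_sum]
  refine Finset.sum_congr rfl (fun e _ => ?_)
  simp only
  have h1 : K.can (x.2.app (.cons e .nil)) = K.ac e (K.can x.2) := by
    rw [can_app]; rfl
  have h2 : K.nn h (x.2.app (.cons e .nil)) = K.nn h x.2 + K.f e (K.can x.2) := by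
    apply K.nn_eq
    rw [Shf.resP_app, K.nn_spec h x.2 (hg.2 x.2 hx.ge), h1, Shf.resP_cons, Shf.resP_nil,
      ← Shf.Hom.nat, K.rel, Z.add_app]
  rw [h1, h2, A.tp_add]

theorem valN_stable {N : ℕ} {v : G.V} {h : T.F v} (hg : K.Good h N) (m : ℕ) :
    K.valN A b (N + m) h = K.valN A b N h := by
  induction m with
  | zero => rfl
  | succ m ih =>
    rw [← add_assoc, K.valN_succ A b hb (hg.mono (by omega)), ih]

omit hb in
noncomputable def valO {v : G.V} (h : T.F v) : M := K.valN A b (K.exists_good h).choose h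

theorem valO_eq {N : ℕ} {v : G.V} {h : T.F v} (hg : K.Good h N) :
    K.valO A b h = K.valN A b N h := by
  have h1 := (K.exists_good h).choose_spec
  have h2 := K.valN_stable A b hb h1 N
  have h3 := K.valN_stable A b hb hg (K.exists_good h).choose
  rw [valO, ← h2, ← h3, add_comm]

omit hb in
theorem valN_front {N : ℕ} {v : G.V} {h : T.F v} (hg : K.Good h N) :
    K.valN A b (N + 1) h = ∑ e, K.valN A b N (T.res e h) := by
  rw [valN, sum_paths_succ]
  refine Finset.sum_congr rfl (fun e _ => ?_)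
  rw [valN]
  refine Finset.sum_congr rfl (fun p hp => ?_)
  rw [mem_paths] at hp
  simp only
  have h1 := K.can_cons e p.2 (by rw [hp]; exact hg.1)
  have h2 : K.nn h (.cons e p.2) = K.nn (T.res e h) p.2 := by
    apply K.nn_eq
    rw [h1, ← K.nn_spec _ p.2 ((hg.res e).2 p.2 hp.ge)]
    rfl
  rw [h1, h2]

theorem valO_add {v : G.V} (h : T.F v) : K.valO A b h = ∑ e, K.valO A b (T.res e h) := by
  obtain ⟨N, hN⟩ := K.exists_good h
  rw [K.valO_eq A b hb (hN.mono (Nat.le_succ N)), K.valN_front A b hN]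
  refine Finset.sum_congr rfl (fun e _ => ?_)
  rw [K.valO_eq A b hb (hN.res e)]

theorem valO_z {v : G.V} (h : T.F v) (m : ℤ) :
    K.valO A b ((Z.z m).app _ h) = A.tp m (K.valO A b h) := by
  obtain ⟨N, hN⟩ := K.exists_good h
  have h1 : ∀ {u : G.V} (p : Pth G u v), N ≤ p.len →
      T.resP p ((Z.z m).app _ h) = (Z.z (m + K.nn h p)).app _ (K.a (K.can p)) := by
    intro u p hp
    rw [← Shf.nat_resP, K.nn_spec h p (hN.2 p hp), Z.add_app]
  have h2 : K.Good ((Z.z m).app _ h) N := ⟨hN.1, fun p hp => ⟨_, h1 p hp⟩⟩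
  rw [K.valO_eq A b hb h2, K.valO_eq A b hb hN, valN, valN, map_sum]
  refine Finset.sum_congr rfl (fun p hp => ?_)
  rw [mem_paths] at hp
  rw [K.nn_eq _ _ _ (h1 p.2 hp.ge), A.tp_add]

theorem b_paths : ∀ (N : ℕ) {v : G.V} (q : K.Q v),
    b q = ∑ p ∈ paths G N v, A.tp (K.fP p.2 q) (b (acP K.ac p.2 q))
  | 0, v, q => by simp [paths, fP, acP, A.tp_zero]
  | N + 1, v, q => by
      rw [sum_paths_succ, hb q]
      refine Finset.sum_congr rfl (fun e _ => ?_)
      rw [b_paths N (K.ac e q), map_sum]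
      refine Finset.sum_congr rfl (fun p _ => ?_)
      rw [← A.tp_add]
      rfl

theorem valO_a {v : G.V} (q : K.Q v) : K.valO A b (K.a q) = b q := by
  have h0 : ∀ {u : G.V} (p : Pth G u v), K.k ≤ p.len →
      T.resP p (K.a q) = (Z.z (K.fP p q)).app _ (K.a (K.can p)) := by
    intro u p hp
    rw [K.relP, K.acP_eq_can p hp]
  have h1 : K.Good (K.a q) K.k := ⟨le_rfl, fun p hp => ⟨_, h0 p hp⟩⟩
  rw [K.valO_eq A b hb h1, valN, K.b_paths A b hb K.k q]
  refine Finset.sum_congr rfl (fun p hp => ?_)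
  rw [mem_paths] at hp
  rw [K.nn_eq _ _ _ (h0 p.2 hp.ge), K.acP_eq_can p.2 hp.ge]

omit hb in
theorem exists_val (hb : ∀ {v : G.V} (q : K.Q v), b q = ∑ e, A.tp (K.f e q) (b (K.ac e q))) :
    ∃ V : AddVal T M, (∀ {v : G.V} (h : T.F v) (m : ℤ),
      V.val ((Z.z m).app _ h) = A.tp m (V.val h)) ∧ ∀ {v : G.V} (q : K.Q v), V.val (K.a q) = b q :=
  ⟨⟨K.valO A b, K.valO_add A b hb⟩, K.valO_z A b hb, K.valO_a A b hb⟩

end val

end Coord

/-! The sheaf `T1`. -/

def shiftZ : ℤ ≃ ℤ := Equiv.addRight 1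

def isConst (G : Gr) (v : G.V) (φ : (amb G ℤ shiftZ).F v) : Prop := ∃ n : ℤ, φ = fun _ => n

theorem isConst_resClosed : (amb G ℤ shiftZ).ResClosed (isConst G) := by
  rintro v e x ⟨n, rfl⟩
  exact ⟨n + 1, rfl⟩

noncomputable def T1 (G : Gr) : Shf G := (amb G ℤ shiftZ).sub (isConst G) isConst_resClosed

theorem mem_add {v : G.V} {φ : (amb G ℤ shiftZ).F v} (n : ℤ)
    (h : (amb G ℤ shiftZ).Mem (isConst G) v φ) :
    (amb G ℤ shiftZ).Mem (isConst G) v (fun m => φ m + n) := by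
  induction h with
  | base h =>
    obtain ⟨k, rfl⟩ := h
    exact .base ⟨k + n, rfl⟩
  | @step v φ h ih =>
    apply Shf.Mem.step
    intro e
    have := ih e
    have hh : (amb G ℤ shiftZ).res e (fun m => φ m + n)
        = fun m => (amb G ℤ shiftZ).res e φ m + n := by
      funext m
      simp only [amb, shiftZ, Equiv.coe_addRight]
      ring
    rw [hh]
    exact this

noncomputable def T1Z (G : Gr) : ZAct (T1 G) where
  z n :=
    { app := fun v φ => ⟨fun m => φ.1 m + n, mem_add n φ.2⟩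
      nat := by
        intro v e x
        apply Subtype.ext
        funext m
        change x.1 _ + 1 + n = x.1 _ + n + 1
        ring }
  z_zero := by
    ext v x
    apply Subtype.ext
    funext m
    change x.1 m + 0 = x.1 m
    ring
  z_add a b := by
    ext v x
    apply Subtype.ext
    funext m
    change x.1 m + (a + b) = x.1 m + a + b
    ring

noncomputable def T1c (G : Gr) (v : G.V) : (T1 G).F v := ⟨fun _ => 0, .base ⟨0, rfl⟩⟩

theorem T1c_res {v : G.V} (e : G.In v) :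
    (T1 G).res e (T1c G v) = ((T1Z G).z 1).app _ (T1c G _) := rfl

theorem T1_free {v : G.V} (x : (T1 G).F v) (n : ℤ) (h : ((T1Z G).z n).app v x = x) : n = 0 := by
  have := congrFun (congrArg Subtype.val h) 0
  change x.1 0 + n = x.1 0 at this
  omega

theorem T1_depth {v : G.V} (h : (T1 G).F v) : ∃ N, ∀ {u : G.V} (p : Pth G u v), N ≤ p.len →
    ∃ n, (T1 G).resP p h = ((T1Z G).z n).app _ (T1c G _) := by
  obtain ⟨N, hN⟩ := h.2.depth isConst_resClosed
  refine ⟨N, fun p hp => ?_⟩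
  obtain ⟨n, hn⟩ := hN p hp
  refine ⟨n, Subtype.ext ((Shf.sub_resP _ _ _ p h).trans (hn.trans ?_))⟩
  funext m
  change n = 0 + n
  ring

/-- coordinates on `T1` from a synchronizing automaton -/
noncomputable def T1Coord (G : Gr) (Q : G.V → Type) [∀ v, Fintype (Q v)] [∀ v, Nonempty (Q v)]
    (ac : ∀ {v : G.V} (e : G.In v), Q v → Q (G.src e)) (k : ℕ)
    (sync : ∀ {u v : G.V} (p : Pth G u v), k ≤ p.len → ∀ q q' : Q v, acP ac p q = acP ac p q') :
    Coord (T1 G) (T1Z G) where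
  Q := Q
  ac := ac
  a := fun {v} _ => T1c G v
  f := fun _ _ => 1
  rel := fun e _ => T1c_res e
  k := k
  sync := sync
  free := T1_free
  gen := fun h _ => T1_depth h

end PSnum
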