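import Pool.Agent.H19.PSFree

open CategoryTheory

namespace PSnum

section Cat

universe v₁ v₂ u₁ u₂

variable {C : Type u₁} [Category.{v₁} C] {D : Type u₂} [Category.{v₂} D]

def Covers {J : Type} {Q : J → C} {P : C} (a : ∀ j, Q j ⟶ P) : Prop :=
  ∀ (S : C) (m : S ⟶ P) [Mono m], (∀ j, ∃ b : Q j ⟶ S, b ≫ m = a j) → IsIso m

theorem Covers.comp_iso {J : Type} {Q : J → C} {P P' : C} {a : ∀ j, Q j ⟶ P} (h : Covers a)
    (φ : P ≅ P') : Covers (fun j => a j ≫ φ.hom) := by
  intro S m hm hb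
  have h1 : IsIso (m ≫ φ.inv) := by
    apply h
    intro j
    obtain ⟨b, hb⟩ := hb j
    refine ⟨b, ?_⟩
    rw [← Category.assoc, hb]
    simp
  have h2 : m = (m ≫ φ.inv) ≫ φ.hom := by simp
  rw [h2]
  infer_instance

theorem Covers.map (e : C ≌ D) {J : Type} {Q : J → C} {P : C} {a : ∀ j, Q j ⟶ P}
    (h : Covers a) : Covers (fun j => e.functor.map (a j)) := by
  intro S m hm hb
  have h1 : IsIso (e.inverse.map m ≫ e.unitInv.app P) := by
    apply h
    intro j
    obtain ⟨b, hb⟩ := hb j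
    refine ⟨e.unit.app (Q j) ≫ e.inverse.map b, ?_⟩
    rw [Category.assoc, ← Category.assoc (e.inverse.map b), ← e.inverse.map_comp, hb]
    simp
  have h2 : IsIso (e.inverse.map m) := by
    have : e.inverse.map m = (e.inverse.map m ≫ e.unitInv.app P) ≫ e.unit.app P := by simp
    rw [this]
    infer_instance
  exact isIso_of_reflects_iso m e.inverse

def IsCop {K : Type} {P : K → C} {Q : C} (j : ∀ k, P k ⟶ Q) : Prop :=
  ∀ (Z : C) (g : ∀ k, P k ⟶ Z), ∃! h : Q ⟶ Z, ∀ k, j k ≫ h = g k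

theorem IsCop.map (e : C ≌ D) {K : Type} {P : K → C} {Q : C} {j : ∀ k, P k ⟶ Q}
    (h : IsCop j) : IsCop (fun k => e.functor.map (j k)) := by
  intro Z g
  obtain ⟨t, ht, ht'⟩ := h (e.inverse.obj Z) (fun k => e.toAdjunction.homEquiv _ _ (g k))
  refine ⟨(e.toAdjunction.homEquiv _ _).symm t, ?_, ?_⟩
  · intro k
    apply (e.toAdjunction.homEquiv _ _).injective
    rw [Adjunction.homEquiv_naturality_left, Equiv.apply_symm_apply, ht]
  · intro t' ht1
    rw [Equiv.eq_symm_apply]
    apply ht'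
    intro k
    rw [← Adjunction.homEquiv_naturality_left, ht1]

theorem IsCop.hom_ext {K : Type} {P : K → C} {Q : C} {j : ∀ k, P k ⟶ Q} (h : IsCop j) {Z : C}
    {f g : Q ⟶ Z} (hfg : ∀ k, j k ≫ f = j k ≫ g) : f = g :=
  (h Z (fun k => j k ≫ g)).unique hfg (fun _ => rfl)

end Cat

variable {G H : Gr}

theorem imgs_resClosed {J : Type} {Q : J → Shf G} {P : Shf G} (a : ∀ j, Q j ⟶ P) :
    P.ResClosed (fun v x => ∃ j z, (a j).app v z = x) := by
  rintro v e x ⟨j, z, rfl⟩
  exact ⟨j, (Q j).res e z, (a j).nat e z⟩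

theorem Covers.loc {J : Type} {Q : J → Shf G} {P : Shf G} {a : ∀ j, Q j ⟶ P}
    (h : Covers a) {v : G.V} (x : P.F v) :
    P.Mem (fun v x => ∃ j z, (a j).app v z = x) v x := by
  have hS : P.ResClosed (fun v x => ∃ j z, (a j).app v z = x) := imgs_resClosed a
  let m := P.subι _ hS
  have hm : Mono m := Shf.mono_of_injective m (fun v => Subtype.val_injective)
  have hi : IsIso m := by
    apply h
    intro j
    refine ⟨⟨fun v z => ⟨(a j).app v z, .base ⟨j, z, rfl⟩⟩, ?_⟩, ?_⟩
    · intro v e x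
      exact Subtype.ext ((a j).nat e x)
    · ext v x
      rfl
  obtain ⟨x', hx'⟩ := Shf.surjective_of_isIso m v x
  rw [← hx']
  exact x'.2

theorem Shf.injective_of_mono {A B : Shf G} (f : A ⟶ B) [Mono f] (v : G.V) :
    Function.Injective (f.app v) := by
  intro x z h
  have h1 : yl x ≫ f = yl z ≫ f := by
    rw [yl_comp, yl_comp, h]
  have h2 : yl x = yl z := (cancel_mono f).1 h1
  have := congrArg (fun t => Shf.Hom.app t v (yg v)) h2
  simpa using this

theorem covers_of_loc {J : Type} {Q : J → Shf G} {P : Shf G} {a : ∀ j, Q j ⟶ P}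
    (h : ∀ v (x : P.F v), P.Mem (fun v x => ∃ j z, (a j).app v z = x) v x) : Covers a := by
  intro S m hm hb
  apply Shf.isIso_of_bijective
  intro v
  refine ⟨Shf.injective_of_mono m v, ?_⟩
  intro x
  have hx := h v x
  induction hx with
  | base h1 =>
    obtain ⟨j, z, rfl⟩ := h1
    obtain ⟨b, hb⟩ := hb j
    exact ⟨b.app _ z, by rw [← hb]; rfl⟩
  | step _ ih =>
    choose t ht using ih
    refine ⟨S.glue t, ?_⟩
    apply P.ext_res
    intro e
    rw [← m.nat, S.res_glue, ht]

theorem covers_elements (P : Shf G) :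
    Covers (J := Σ v, P.F v) (Q := fun x => y x.1) (fun x => yl x.2) := by
  apply covers_of_loc
  intro v x
  exact .base ⟨⟨v, x⟩, yg v, by simp⟩

theorem cop_paths (N : ℕ) (v : G.V) :
    IsCop (K := {p : Tip G v // p ∈ paths G N v}) (P := fun p => y p.1.1) (Q := y v)
      (fun p => ym p.1.2) := by
  intro Z g
  obtain ⟨x, hx⟩ := Z.exists_glue N (v := v) (fun p hp => (g ⟨p, hp⟩).app _ (yg _))
  refine ⟨yl x, ?_, ?_⟩
  · intro p
    rw [ym_comp_yl, hx p.1 p.2]
    exact yl_app _
  · intro t ht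
    apply y_hom_ext
    rw [yl_yg]
    apply Z.ext_resP N
    intro p hp
    have h1 := ht ⟨p, hp⟩
    rw [← yl_app t, ym_comp_yl] at h1
    have h2 := congrArg (fun t => Shf.Hom.app t _ (yg _)) h1
    simp only [yl_yg] at h2
    rw [h2, hx p hp]

theorem cop_fam (I : Fam G) :
    IsCop (K := I.ι) (P := fun i => y (I.w i)) (Q := L I) (fun i => yl (gen I i)) := by
  intro Z g
  refine ⟨lift I (fun i => (g i).app _ (yg _)), ?_, ?_⟩
  · intro i
    apply y_hom_ext
    simp
  · intro t ht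
    apply L_hom_ext
    intro i
    rw [lift_gen, ← ht i]
    simp

theorem split_retract (I : Fam G) {P : Shf G} (r : L I ⟶ P) (s : P ⟶ L I) (h : s ≫ r = 𝟙 P) :
    ∃ A : Fam G, Nonempty (L A ≅ P) := by
  classical
  have hrs : ∀ {v : G.V} (x : P.F v), r.app v (s.app v x) = x := by
    intro v x
    have := congrArg (fun t => Shf.Hom.app t v x) h
    exact this
  have h1 : ∀ i : I.ι, ∃ N, ∀ {u : G.V} (p : Pth G u (I.w i)), N ≤ p.len →
      ∃ j q, (L I).resP p (s.app _ (r.app _ (gen I i))) = el I (v := u) j q :=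
    fun i => L_depth I _
  choose N' hN' using h1
  obtain ⟨N, hN⟩ : ∃ N, ∀ i, N' i ≤ N := ⟨Finset.univ.sup N', fun i => Finset.le_sup (Finset.mem_univ i)⟩
  let E : Finset (Σ i : I.ι, Tip G (I.w i)) :=
    ((Finset.univ : Finset I.ι).sigma (fun i => paths G N (I.w i))).filter
      (fun x => s.app _ (r.app _ (el I x.1 x.2.2)) = el I x.1 x.2.2)
  have hE : ∀ x, x ∈ E ↔ x.2.2.len = N ∧ s.app _ (r.app _ (el I x.1 x.2.2)) = el I x.1 x.2.2 := by
    intro x
    simp [E, mem_paths]
  let A : Fam G := { ι := E, w := fun a => a.1.2.1 }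
  let κ : L A ⟶ P := lift A (fun a => r.app _ (el I a.1.1 a.1.2.2))
  have hκ : ∀ {v : G.V} (a : A.ι) (q : Pth G v (A.w a)),
      κ.app v (el A a q) = r.app _ (el I a.1.1 (a.1.2.2.app q)) := by
    intro v a q
    rw [lift_el, ← Shf.nat_resP, resP_el]
  have hsκ : ∀ {v : G.V} (a : A.ι) (q : Pth G v (A.w a)),
      s.app v (κ.app v (el A a q)) = el I a.1.1 (a.1.2.2.app q) := by
    intro v a q
    rw [hκ, ← resP_el, Shf.nat_resP, Shf.nat_resP, ((hE a.1).1 a.2).2]
  refine ⟨A, ⟨@asIso _ _ _ _ κ (Shf.isIso_of_bijective κ (fun v => ⟨?_, ?_⟩))⟩⟩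
  · intro x z hxz
    obtain ⟨N1, hN1⟩ := L_depth A x
    obtain ⟨N2, hN2⟩ := L_depth A z
    apply Shf.ext_resP _ (max N1 N2)
    intro p hp
    rw [mem_paths] at hp
    obtain ⟨a, q, haq⟩ := hN1 p.2 (by omega)
    obtain ⟨a', q', haq'⟩ := hN2 p.2 (by omega)
    rw [haq, haq']
    have h2 : s.app _ (κ.app _ (el A a q)) = s.app _ (κ.app _ (el A a' q')) := by
      rw [← haq, ← haq', Shf.nat_resP κ, Shf.nat_resP κ, hxz]
    rw [hsκ, hsκ] at h2
    have h3 := el_inj I _ _ _ _ h2
    obtain ⟨⟨i, w, a1⟩, ha⟩ := a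
    obtain ⟨⟨i', w', a1'⟩, ha'⟩ := a'
    simp only [Sigma.mk.injEq] at h3
    obtain ⟨h4, h5⟩ := h3
    subst h4
    simp only [heq_eq_eq, Sigma.mk.injEq, true_and] at h5
    have h6 := Pth.app_inj _ _ _ _ (by rw [((hE _).1 ha).1, ((hE _).1 ha').1]) h5
    cases h6
    rfl
  · intro t
    let S' : ∀ v, (L I).F v → Prop := fun v z => ∃ i q, N ≤ q.len ∧ z = el I (v := v) i q
    have hS' : ∀ v (z : (L I).F v), (L I).Mem S' v z := by
      intro v z
      refine (L_mem I z).bind ?_
      rintro v z ⟨i, q, rfl⟩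
      apply Shf.mem_of_depth N
      intro p hp
      rw [resP_el]
      rw [mem_paths] at hp
      exact .base ⟨i, _, by simp [hp], rfl⟩
    have key : ∀ v (x : (L I).F v), (L I).Mem S' v x → ∀ t : P.F v, s.app v t = x →
        ∃ z : (L A).F v, κ.app v z = t := by
      intro v x hx
      induction hx with
      | base h2 =>
        obtain ⟨i, q, hq, rfl⟩ := h2
        intro t ht
        obtain ⟨w, p, q1, hp, rfl⟩ := q.exists_split N hq
        obtain ⟨j, q', hj⟩ := hN' i p (by rw [hp]; exact hN i)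
        have h3 : s.app _ (r.app _ (el I i p)) = el I j q' := by
          rw [← hj, el_eq_resP, Shf.nat_resP, Shf.nat_resP]
        have h4 : el I j (q'.app q1) = el I i (p.app q1) := by
          rw [← resP_el, ← h3, ← Shf.nat_resP, ← Shf.nat_resP, resP_el, ← ht, hrs]
        have h5 := el_inj I _ _ _ _ h4
        simp only [Sigma.mk.injEq] at h5
        obtain ⟨h6, h7⟩ := h5
        subst h6
        simp only [heq_eq_eq, Sigma.mk.injEq, true_and] at h7
        have h8 := Pth.app_right_cancel _ _ _ h7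
        subst h8
        refine ⟨el A ⟨⟨j, w, q'⟩, (hE _).2 ⟨hp, h3⟩⟩ q1, ?_⟩
        rw [hκ]
        simp only
        rw [← ht, hrs]
      | @step v x h2 ih =>
        intro t ht
        have h3 : ∀ e, s.app _ (P.res e t) = (L I).res e x := by
          intro e
          rw [s.nat, ht]
        choose z hz using fun e => ih e (P.res e t) (h3 e)
        refine ⟨(L A).glue z, ?_⟩
        apply P.ext_res
        intro e
        rw [← κ.nat, Shf.res_glue, hz]
    exact key _ _ (hS' _ _) t rfl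

/-- the image of a representable under an equivalence is finite free -/
theorem fin_obj (e : Shf G ≌ Shf H) (v : G.V) :
    ∃ I : Fam H, Nonempty (L I ≅ e.functor.obj (y v)) := by
  classical
  set P := e.functor.obj (y v) with hP
  have hcov := ((covers_elements P).map e.symm).comp_iso (e.unitIso.app (y v)).symm
  obtain ⟨N, hN⟩ := (hcov.loc (yg v)).depth (imgs_resClosed _)
  have h1 : ∀ p : {p : Tip G v // p ∈ paths G N v}, ∃ (x : Σ w, P.F w)
      (b : e.functor.obj (y p.1.1) ⟶ y x.1), b ≫ yl x.2 = e.functor.map (ym p.1.2) := by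
    intro p
    obtain ⟨x, z, hxz⟩ := hN p.1.2 (by rw [mem_paths.1 p.2])
    refine ⟨x, (e.toAdjunction.homEquiv _ _).symm (yl z), ?_⟩
    apply (e.toAdjunction.homEquiv _ _).injective
    rw [Adjunction.homEquiv_naturality_right, Equiv.apply_symm_apply]
    rw [Adjunction.homEquiv_unit]
    have h2 : yl z ≫ (e.symm.functor.map (yl x.2) ≫ (e.unitIso.app (y v)).symm.hom)
        = ym p.1.2 := by
      rw [yl_comp, hxz]
      rfl
    rw [← h2]
    simp only [Equivalence.symm_functor, Iso.symm_hom, Iso.app_inv,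
      Equivalence.toAdjunction_unit]
    refine Eq.trans ?_ (e.unit.naturality
      (yl z ≫ e.inverse.map (yl x.2) ≫ e.unitIso.inv.app (y v)))
    simp
    erw [Category.comp_id]
  choose x b hb using h1
  let I : Fam H := { ι := {p : Tip G v // p ∈ paths G N v}, w := fun p => (x p).1 }
  let r : L I ⟶ P := lift I (fun p => (x p).2)
  have hcop := (cop_paths N v).map e
  obtain ⟨s, hs, -⟩ := hcop (L I) (fun p => b p ≫ yl (gen I p))
  have hrs : s ≫ r = 𝟙 P := by
    apply hcop.hom_ext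
    intro p
    have := hs p
    simp only at this
    rw [← Category.assoc, this, Category.assoc, yl_comp, lift_gen, hb, Category.comp_id]
  exact split_retract I r s hrs

end PSnum
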