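import Pool.Agent.H19.PSCoord

open CategoryTheory

namespace PSnum

section algebra

variable {R : Type} [CommRing R] {n m : Type} [Fintype n] [Fintype m] [DecidableEq n]
  [DecidableEq m]

/-- cokernel of the row space -/
abbrev Cok (Q : Matrix m m R) : Type := (m → R) ⧸ Submodule.span R (Set.range (fun x => Q x))

theorem det_dvd_of_surj (P : Matrix n n R) (Q : Matrix m m R) (c : n → Cok Q)
    (hc : ∀ i, ∑ j, P i j • c j = 0) (hs : Submodule.span R (Set.range c) = ⊤) :
    Q.det ∣ P.det := by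
  classical
  have h1 : ∀ i, ∃ a : m → R, (Submodule.Quotient.mk a : Cok Q) = c i :=
    fun i => Submodule.Quotient.mk_surjective _ (c i)
  choose A hA using h1
  have h2 : ∀ i, ∃ b : m → R, ∑ l, b l • Q l = ∑ j, P i j • A j := by
    intro i
    apply (Submodule.mem_span_range_iff_exists_fun R).1
    rw [← Submodule.Quotient.mk_eq_zero]
    rw [← Submodule.mkQ_apply, map_sum]
    simp only [map_smul, Submodule.mkQ_apply, hA]
    exact hc i
  choose B hB using h2
  have h3 : ∀ l, ∃ g : n → R, ∑ i, g i • c i = (Submodule.Quotient.mk (Pi.single l 1) : Cok Q) := by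
    intro l
    apply (Submodule.mem_span_range_iff_exists_fun R).1
    rw [hs]
    trivial
  choose Γ hΓ using h3
  have h4 : ∀ l, ∃ d : m → R, ∑ k, d k • Q k = Pi.single l 1 - ∑ i, Γ l i • A i := by
    intro l
    apply (Submodule.mem_span_range_iff_exists_fun R).1
    rw [← Submodule.Quotient.mk_eq_zero]
    rw [← Submodule.mkQ_apply, map_sub, map_sum]
    simp only [map_smul, Submodule.mkQ_apply, hA]
    rw [hΓ]
    simp
  choose Δ hΔ using h4
  let A' : Matrix n m R := Matrix.of A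
  let B' : Matrix n m R := Matrix.of B
  let Γ' : Matrix m n R := Matrix.of Γ
  let Δ' : Matrix m m R := Matrix.of Δ
  have e1 : P * A' - B' * Q = 0 := by
    ext i l
    have := congrFun (hB i) l
    simp only [Finset.sum_apply, Pi.smul_apply, smul_eq_mul] at this
    simp only [Matrix.sub_apply, Matrix.mul_apply, A', B', Matrix.of_apply, Matrix.zero_apply]
    rw [← this]
    ring
  have e2 : Γ' * A' + Δ' * Q = 1 := by
    ext l k
    have := congrFun (hΔ l) k
    simp only [Finset.sum_apply, Pi.smul_apply, smul_eq_mul, Pi.sub_apply] at this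
    simp only [Matrix.add_apply, Matrix.mul_apply, A', Γ', Δ', Matrix.of_apply]
    rw [this, Matrix.one_apply, Pi.single_apply]
    simp only [eq_comm (a := k)]
    ring
  have e3 : Matrix.fromBlocks P (-B') Γ' Δ' * Matrix.fromBlocks 1 A' 0 Q
      = Matrix.fromBlocks P 0 Γ' 1 := by
    rw [Matrix.fromBlocks_multiply]
    congr 1
    · simp
    · rw [Matrix.neg_mul, ← sub_eq_add_neg, e1]
    · simp
  have e4 := congrArg Matrix.det e3
  rw [Matrix.det_mul, Matrix.det_fromBlocks_zero₂₁, Matrix.det_fromBlocks_zero₁₂] at e4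
  simp only [Matrix.det_one, one_mul, mul_one] at e4
  exact ⟨_, by rw [← e4, mul_comm]⟩

end algebra

open scoped LaurentPolynomial
open LaurentPolynomial (T)

def PosOne (x : ℤ[T;T⁻¹]) : Prop := ∃ p : Polynomial ℤ, p.coeff 0 = 1 ∧ Polynomial.toLaurent p = x

theorem dvd_of_toLaurent {p q : Polynomial ℤ} (hp : p.coeff 0 = 1)
    (h : Polynomial.toLaurent p ∣ Polynomial.toLaurent q) : p ∣ q := by
  obtain ⟨z, hz⟩ := h
  obtain ⟨n, z', hz'⟩ := LaurentPolynomial.exists_T_pow z
  have h1 : Polynomial.toLaurent (q * Polynomial.X ^ n) = Polynomial.toLaurent (p * z') := by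
    rw [map_mul, map_mul, hz', hz, Polynomial.toLaurent_X_pow]
    ring
  have h2 := Polynomial.toLaurent_injective h1
  have h3 : IsCoprime p Polynomial.X := by
    obtain ⟨g, hg⟩ : (Polynomial.X : Polynomial ℤ) ∣ p - 1 := by
      rw [Polynomial.X_dvd_iff]
      simp [hp]
    refine ⟨1, -g, ?_⟩
    have : p = 1 + Polynomial.X * g := by rw [← hg]; ring
    rw [this]
    ring
  exact (h3.pow_right (n := n)).dvd_of_dvd_mul_right ⟨z', h2⟩

theorem PosOne.eq {x z : ℤ[T;T⁻¹]} (hx : PosOne x) (hz : PosOne z) (h1 : x ∣ z) (h2 : z ∣ x) :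
    x = z := by
  obtain ⟨p, hp, rfl⟩ := hx
  obtain ⟨q, hq, rfl⟩ := hz
  have h3 := associated_of_dvd_dvd (dvd_of_toLaurent hp h1) (dvd_of_toLaurent hq h2)
  obtain ⟨u, hu⟩ := h3
  obtain ⟨r, hr, hr'⟩ := Polynomial.isUnit_iff.1 u.isUnit
  rw [← hr'] at hu
  have h4 := congrArg (fun p => Polynomial.coeff p 0) hu
  simp only [Polynomial.coeff_mul_C, hp, hq, one_mul] at h4
  rw [h4] at hu
  simp only [map_one, mul_one] at hu
  rw [hu]

variable {G H : Gr}

namespace Coord

variable {T' : Shf G} {Z : ZAct T'} (K : Coord T' Z)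

abbrev Idx : Type := Σ v, K.Q v

noncomputable instance : DecidableEq K.Idx := Classical.decEq _

noncomputable def mat : Matrix K.Idx K.Idx ℤ[T;T⁻¹] := fun x w =>
  ∑ e : G.In x.1, if (⟨G.src e, K.ac e x.2⟩ : K.Idx) = w then T (K.f e x.2) else 0

noncomputable def bb {v : G.V} (q : K.Q v) : Cok (1 - K.mat) :=
  Submodule.Quotient.mk (Pi.single ⟨v, q⟩ 1)

theorem bb_rel {v : G.V} (q : K.Q v) :
    K.bb q = ∑ e, (T (K.f e q) : ℤ[T;T⁻¹]) • K.bb (K.ac e q) := by
  rw [← sub_eq_zero]
  simp only [bb, ← Submodule.mkQ_apply, ← map_smul]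
  rw [← map_sum, ← map_sub, Submodule.mkQ_apply, Submodule.Quotient.mk_eq_zero]
  apply Submodule.subset_span
  refine ⟨⟨v, q⟩, ?_⟩
  funext w
  simp only [Matrix.sub_apply, Matrix.one_apply, Pi.sub_apply, Finset.sum_apply, Pi.smul_apply,
    smul_eq_mul, mat, Pi.single_apply, mul_ite, mul_one, mul_zero, eq_comm (a := w)]

noncomputable def cokTAct {m : Type} [Fintype m] [DecidableEq m] (Q : Matrix m m ℤ[T;T⁻¹]) :
    TAct (Cok Q) where
  tp n := DistribSMul.toAddMonoidHom (Cok Q) (T n : ℤ[T;T⁻¹])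
  tp_zero x := by simp
  tp_add a b x := by
    simp only [DistribSMul.toAddMonoidHom_apply, LaurentPolynomial.T_add, mul_smul]

theorem span_bb : Submodule.span ℤ[T;T⁻¹] (Set.range (fun x : K.Idx => K.bb x.2)) = ⊤ := by
  rw [eq_top_iff]
  rintro x -
  obtain ⟨f, rfl⟩ := Submodule.Quotient.mk_surjective _ x
  have : f = ∑ l : K.Idx, f l • (Pi.single l (1 : ℤ[T;T⁻¹]) : K.Idx → ℤ[T;T⁻¹]) := by
    funext w
    simp [Finset.sum_apply, Pi.single_apply]
  rw [this, ← Submodule.mkQ_apply, map_sum]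
  apply Submodule.sum_mem
  intro l _
  rw [map_smul]
  apply Submodule.smul_mem
  apply Submodule.subset_span
  exact ⟨l, rfl⟩

end Coord

theorem cls_act {M : Type} [AddCommGroup M] {T' : Shf G} (V : AddVal T' M) (f : T' ⟶ T')
    (φ : M →+ M) (hf : ∀ {v : G.V} (h : T'.F v), V.val (f.app _ h) = φ (V.val h)) (P : Shf G)
    (h : P ⟶ T') : cls V P (h ≫ f) = φ (cls V P h) := by
  unfold cls
  split_ifs with hP
  · rw [map_sum]
    refine Finset.sum_congr rfl (fun i _ => ?_)
    rw [Shf.comp_app, hf]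
  · simp

theorem det_dvd (e : Shf G ≌ Shf H) {TG : Shf G} {TH : Shf H} (ZG : ZAct TG) (ZH : ZAct TH)
    (ι : e.functor.obj TG ≅ TH)
    (hι : ∀ n, e.functor.map (ZG.z n) ≫ ι.hom = ι.hom ≫ ZH.z n)
    (KG : Coord TG ZG) (KH : Coord TH ZH) :
    (1 - KH.mat).det ∣ (1 - KG.mat).det := by
  obtain ⟨V, hVz, hVa⟩ := KH.exists_val (Coord.cokTAct (1 - KH.mat)) (fun q => KH.bb q)
    (fun q => KH.bb_rel q)
  set V' := V.trans e ι with hV'
  have hV'z : ∀ {v : G.V} (h : TG.F v) (m : ℤ),
      V'.val ((ZG.z m).app _ h) = (T m : ℤ[T;T⁻¹]) • V'.val h := by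
    intro v h m
    change cls V _ (e.functor.map (yl ((ZG.z m).app _ h)) ≫ ι.hom) = _
    rw [← yl_comp, e.functor.map_comp, Category.assoc, hι, ← Category.assoc]
    exact cls_act V (ZH.z m) ((Coord.cokTAct (1 - KH.mat)).tp m) (fun h => hVz h m) _ _
  apply det_dvd_of_surj (1 - KG.mat) (1 - KH.mat) (fun x => V'.val (KG.a x.2))
  · rintro ⟨v, q⟩
    simp only [Matrix.sub_apply, sub_smul, Finset.sum_sub_distrib, Matrix.one_apply, ite_smul,
      one_smul, zero_smul, Finset.sum_ite_eq, Finset.mem_univ, if_true]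
    rw [sub_eq_zero, V'.add]
    simp only [Coord.mat, Finset.sum_smul, ite_smul, zero_smul]
    rw [Finset.sum_comm]
    refine Finset.sum_congr rfl (fun f _ => ?_)
    rw [Finset.sum_ite_eq]
    simp only [Finset.mem_univ, if_true]
    rw [KG.rel, hV'z]
  · set S := Submodule.span ℤ[T;T⁻¹] (Set.range (fun x : KG.Idx => V'.val (KG.a x.2))) with hS
    have h1 : ∀ {v : G.V} (h : TG.F v), V'.val h ∈ S := by
      intro v h
      obtain ⟨N, hN⟩ := KG.gen h (KG.base v)
      rw [V'.add_paths N h]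
      apply Submodule.sum_mem
      intro p hp
      rw [mem_paths] at hp
      obtain ⟨n, hn⟩ := hN p.2 hp.ge
      rw [hn, hV'z]
      apply Submodule.smul_mem
      apply Submodule.subset_span
      exact ⟨⟨_, _⟩, rfl⟩
    have h2 : ∀ {w : H.V} (h : TH.F w), V.val h ∈ S := by
      intro w h
      rw [← trans_trans e ι V h]
      change cls V' _ _ ∈ S
      unfold cls
      split_ifs
      · exact Submodule.sum_mem _ (fun i _ => h1 _)
      · exact S.zero_mem
    rw [eq_top_iff, ← KH.span_bb, Submodule.span_le]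
    rintro _ ⟨x, rfl⟩
    have h3 := h2 (KH.a x.2)
    rw [hVa] at h3
    exact h3

end PSnum
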