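import Pool.Agent.H19.PSGerm

open CategoryTheory

namespace PSnum

variable {G H : Gr} (e : Shf G ≌ Shf H)

noncomputable def TT : Shf G := e.inverse.obj (T1 H)

noncomputable def TTZ : ZAct (TT e) where
  z n := e.inverse.map ((T1Z H).z n)
  z_zero := by rw [(T1Z H).z_zero, e.inverse.map_id]; rfl
  z_add a b := by rw [(T1Z H).z_add, e.inverse.map_comp]; rfl

noncomputable def gh {v : G.V} (h : (TT e).F v) : e.functor.obj (y v) ⟶ T1 H :=
  (e.toAdjunction.homEquiv _ _).symm (yl (F := e.inverse.obj (T1 H)) h)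

theorem gh_z {v : G.V} (h : (TT e).F v) (n : ℤ) :
    gh e (((TTZ e).z n).app v h) = gh e h ≫ (T1Z H).z n := by
  unfold gh
  rw [← Adjunction.homEquiv_naturality_right_symm]
  congr 1
  exact (yl_comp (F := e.inverse.obj (T1 H)) h (e.inverse.map ((T1Z H).z n))).symm

theorem unitInv_yl {v : G.V} (h : (TT e).F v) :
    e.unitInv.app (y v) ≫ yl (F := e.inverse.obj (T1 H)) h = e.inverse.map (gh e h) := by
  have h1 : (e.toAdjunction.homEquiv _ _) (gh e h) = yl (F := e.inverse.obj (T1 H)) h :=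
    Equiv.apply_symm_apply _ _
  rw [Adjunction.homEquiv_unit] at h1
  rw [← h1]
  simp

theorem fam_nonempty {v : G.V} {I : Fam H} (φ : L I ≅ e.functor.obj (y v)) : Nonempty I.ι := by
  by_contra hcon
  rw [not_nonempty_iff] at hcon
  have h1 : ∀ (W : Shf H) (f g : e.functor.obj (y v) ⟶ W), f = g := by
    intro W f g
    have : φ.hom ≫ f = φ.hom ≫ g := L_hom_ext _ _ (fun i => (hcon.false i).elim)
    exact (cancel_epi φ.hom).1 this
  have h2 := h1 _ (e.functor.map (yl (T1c G v))) (e.functor.map (yl (((T1Z G).z 1).app _ (T1c G v))))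
  have h3 := e.functor.map_injective h2
  have h4 := congrArg (fun t => Shf.Hom.app t v (yg v)) h3
  simp only [yl_yg] at h4
  have := T1_free _ _ h4.symm
  omega

theorem TT_nonempty (v : G.V) : Nonempty ((TT e).F v) := by
  obtain ⟨I, ⟨φ⟩⟩ := fin_obj e v
  exact ⟨Shf.Hom.app ((e.toAdjunction.homEquiv _ _) (φ.inv ≫ lift I (fun i => T1c H _))) v (yg v)⟩

theorem TT_free {v : G.V} (h : (TT e).F v) (n : ℤ) (hn : ((TTZ e).z n).app v h = h) : n = 0 := by
  obtain ⟨I, ⟨φ⟩⟩ := fin_obj e v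
  obtain ⟨i⟩ := fam_nonempty e φ
  have h1 := gh_z e h n
  rw [hn] at h1
  have h2 := congrArg (fun t => Shf.Hom.app t _ (φ.hom.app _ (gen I i))) h1
  simp only [Shf.comp_app] at h2
  exact T1_free _ _ h2.symm

theorem TT_loc {v : G.V} (h h' : (TT e).F v) : ∃ N, ∀ {u : G.V} (p : Pth G u v), N ≤ p.len →
    ∃ n, (TT e).resP p h' = ((TTZ e).z n).app _ ((TT e).resP p h) := by
  classical
  obtain ⟨I, ⟨φ⟩⟩ := fin_obj e v
  have h1 : ∀ i : I.ι, ∃ N, ∀ {u : H.V} (p : Pth H u (I.w i)), N ≤ p.len →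
      ∃ n, (T1 H).resP p ((gh e h).app _ (φ.hom.app _ (gen I i))) = ((T1Z H).z n).app _ (T1c H _) :=
    fun i => T1_depth _
  have h1' : ∀ i : I.ι, ∃ N, ∀ {u : H.V} (p : Pth H u (I.w i)), N ≤ p.len →
      ∃ n, (T1 H).resP p ((gh e h').app _ (φ.hom.app _ (gen I i))) = ((T1Z H).z n).app _ (T1c H _) :=
    fun i => T1_depth _
  choose N1 hN1 using h1
  choose N2 hN2 using h1'
  let N := (Finset.univ.sup N1) + (Finset.univ.sup N2)
  have hle1 : ∀ i, N1 i ≤ N := fun i =>
    le_trans (Finset.le_sup (Finset.mem_univ i)) (Nat.le_add_right _ _)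
  have hle2 : ∀ i, N2 i ≤ N := fun i =>
    le_trans (Finset.le_sup (Finset.mem_univ i)) (Nat.le_add_left _ _)
  let J : Type := {x : Σ i : I.ι, Tip H (I.w i) // x.2.2.len = N}
  let a : ∀ x : J, y x.1.2.1 ⟶ L I := fun x => yl (el I x.1.1 x.1.2.2)
  have hcov : Covers a := by
    apply covers_of_loc
    intro v z
    refine (L_mem I z).bind ?_
    rintro v z ⟨i, q, rfl⟩
    apply Shf.mem_of_depth N
    intro p hp
    rw [mem_paths] at hp
    rw [resP_el]
    obtain ⟨w, p1, r, hp1, hs⟩ := (q.app p.2).exists_split N (by simp [hp])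
    rw [hs]
    refine .base ⟨⟨⟨i, ⟨w, p1⟩⟩, hp1⟩, (y w).resP r (yg w), ?_⟩
    rw [Shf.nat_resP]
    simp only [a, yl_yg, resP_el]
  have hcov2 := ((hcov.comp_iso φ).map e.symm).comp_iso (e.unitIso.app (y v)).symm
  obtain ⟨N', hN'⟩ := (hcov2.loc (yg v)).depth (imgs_resClosed _)
  have hax : ∀ x : J, ∃ n, (a x ≫ φ.hom) ≫ gh e h' = ((a x ≫ φ.hom) ≫ gh e h) ≫ (T1Z H).z n := by
    intro x
    obtain ⟨n, hn⟩ := hN1 x.1.1 x.1.2.2 (by rw [x.2]; exact hle1 _)
    obtain ⟨n', hn'⟩ := hN2 x.1.1 x.1.2.2 (by rw [x.2]; exact hle2 _)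
    refine ⟨n' - n, ?_⟩
    apply y_hom_ext
    simp only [Shf.comp_app, a, yl_yg]
    rw [el_eq_resP, Shf.nat_resP, Shf.nat_resP, Shf.nat_resP, hn, hn', ← ZAct.add_app]
    congr 2
    ring
  refine ⟨N', fun {u} p hp => ?_⟩
  obtain ⟨x, z, hz⟩ := hN' p hp
  obtain ⟨n, hn⟩ := hax x
  refine ⟨n, ?_⟩
  have hzm : yl z ≫ (e.symm.functor.map (a x ≫ φ.hom) ≫ e.unitInv.app (y v)) = ym p := by
    rw [yl_comp]
    exact congrArg yl hz
  have key : ∀ k : (TT e).F v, yl (F := e.inverse.obj (T1 H)) ((TT e).resP p k)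
      = yl z ≫ e.symm.functor.map ((a x ≫ φ.hom) ≫ gh e k) := by
    intro k
    have h5 : yl (F := e.inverse.obj (T1 H)) ((TT e).resP p k)
        = ym p ≫ yl (F := e.inverse.obj (T1 H)) k := (ym_comp_yl (F := e.inverse.obj (T1 H)) p k).symm
    rw [h5, ← hzm]
    simp only [Category.assoc]
    rw [unitInv_yl]
    simp only [Equivalence.symm_functor, Functor.map_comp, Category.assoc]
  have h6 : yl (F := e.inverse.obj (T1 H)) ((TT e).resP p h')
      = yl (F := e.inverse.obj (T1 H)) (((TTZ e).z n).app _ ((TT e).resP p h)) := by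
    rw [key h', hn]
    have h7 : yl (F := e.inverse.obj (T1 H)) (((TTZ e).z n).app _ ((TT e).resP p h))
        = yl (F := e.inverse.obj (T1 H)) ((TT e).resP p h) ≫ e.inverse.map ((T1Z H).z n) :=
      (yl_comp (F := e.inverse.obj (T1 H)) _ _).symm
    rw [h7, key h]
    simp only [Equivalence.symm_functor, Functor.map_comp, Category.assoc]
  have h8 := congrArg (fun t => Shf.Hom.app t _ (yg _)) h6
  exact (yl_yg (F := e.inverse.obj (T1 H)) _).symm.trans
    (h8.trans (yl_yg (F := e.inverse.obj (T1 H)) _))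

/-! automaton -/

/-- forget the first edge -/
def tl {v : G.V} : (Σ w, Pth G v w) → Σ w, Pth G v w
  | ⟨_, .nil⟩ => ⟨v, .nil⟩
  | ⟨_, .cons e p⟩ => ⟨G.src e, p⟩

def ap {u v : G.V} (x : Σ w, Pth G v w) (p : Pth G u v) : Σ w, Pth G u w := ⟨x.1, x.2.app p⟩

theorem tl_len {v : G.V} (x : Σ w, Pth G v w) (n : ℕ) (h : x.2.len = n + 1) : (tl x).2.len = n := by
  obtain ⟨w, p⟩ := x
  cases p with
  | nil => simp at h
  | cons e p =>
    have h' : p.len + 1 = n + 1 := h
    have : p.len = n := by omega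
    exact this

theorem tl_ap {u v : G.V} (x : Σ w, Pth G v w) (p : Pth G u v) (h : 1 ≤ x.2.len) :
    tl (ap x p) = ap (tl x) p := by
  obtain ⟨w, q⟩ := x
  cases q with
  | nil => simp at h
  | cons e q => rfl

theorem tl_iter_len {v : G.V} (x : Σ w, Pth G v w) (n m : ℕ) (h : x.2.len = m + n) :
    (tl^[n] x).2.len = m := by
  induction n generalizing x with
  | zero => simpa using h
  | succ n ih =>
    rw [Function.iterate_succ_apply]
    exact ih _ (tl_len x _ (by omega))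

theorem tl_iter_ap {u v : G.V} (x : Σ w, Pth G v w) (p : Pth G u v) (n : ℕ) (h : n ≤ x.2.len) :
    tl^[n] (ap x p) = ap (tl^[n] x) p := by
  induction n generalizing x with
  | zero => rfl
  | succ n ih =>
    rw [Function.iterate_succ_apply, Function.iterate_succ_apply, tl_ap _ _ (by omega), ih]
    have := tl_len x (x.2.len - 1) (by omega)
    omega

theorem len_zero {v : G.V} (x : Σ w, Pth G v w) (h : x.2.len = 0) : x = ⟨v, .nil⟩ := by
  obtain ⟨w, p⟩ := x
  cases p with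
  | nil => rfl
  | cons e p => simp at h

/-- paths of length `K` starting at `v` -/
def QK (G : Gr) (K : ℕ) (v : G.V) : Type := {x : Σ w, Pth G v w // x.2.len = K}

noncomputable instance (K : ℕ) (v : G.V) : Fintype (QK G K v) := by
  classical
  let f : QK G K v → Σ w : G.V, {x // x ∈ paths G K w} :=
    fun x => ⟨x.1.1, ⟨⟨v, x.1.2⟩, mem_paths.2 x.2⟩⟩
  have hf : Function.Injective f := by
    rintro ⟨⟨w, p⟩, hp⟩ ⟨⟨w', p'⟩, hp'⟩ h
    simp only [f, Sigma.mk.injEq] at h
    obtain ⟨h1, h2⟩ := h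
    subst h1
    simp only [heq_eq_eq, Subtype.mk.injEq, Sigma.mk.injEq, true_and] at h2
    subst h2
    rfl
  exact Fintype.ofInjective f hf

def acK (K : ℕ) {v : G.V} (e : G.In v) (q : QK G K v) : QK G K (G.src e) :=
  ⟨tl (ap q.1 (.cons e .nil)), tl_len _ _ (by simp [ap, q.2])⟩

theorem acP_acK (K : ℕ) {u : G.V} : ∀ {v : G.V} (p : Pth G u v) (q : QK G K v),
    (acP (acK K) p q).1 = tl^[p.len] (ap q.1 p)
  | _, .nil, q => by simp [acP, ap]
  | _, .cons e p, q => by
      rw [acP, acP_acK K p]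
      simp only [acK, Pth.len_cons]
      rw [Function.iterate_succ_apply]
      congr 1
      rw [← tl_ap _ _ (by simp [ap])]
      congr 1
      simp only [ap]
      rw [Pth.app_assoc]
      rfl

theorem acK_sync (K : ℕ) {u v : G.V} (p : Pth G u v) (hp : K ≤ p.len) (q q' : QK G K v) :
    acP (acK K) p q = acP (acK K) p q' := by
  apply Subtype.ext
  rw [acP_acK, acP_acK]
  have h1 : ∀ q : QK G K v, tl^[p.len] (ap q.1 p) = tl^[p.len - K] ⟨v, p⟩ := by
    intro q
    have h2 : p.len = (p.len - K) + K := by omega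
    rw [h2, Function.iterate_add_apply, tl_iter_ap _ _ _ (by rw [q.2])]
    have h3 : tl^[K] q.1 = ⟨v, .nil⟩ := len_zero _ (tl_iter_len _ _ _ (by rw [q.2]; omega))
    rw [h3]
    rw [← h2]
    rfl
  rw [h1, h1]

theorem exists_fwd (hout : ∀ v : G.V, ∃ (w : G.V) (e : G.In w), G.src e = v) (v : G.V) :
    ∀ K, Nonempty (QK G K v)
  | 0 => ⟨⟨⟨v, .nil⟩, rfl⟩⟩
  | K + 1 => by
      obtain ⟨⟨⟨w, p⟩, hp⟩⟩ := exists_fwd hout v K
      obtain ⟨w', e, he⟩ := hout w
      subst he
      exact ⟨⟨⟨w', .cons e p⟩, by simpa using hp⟩⟩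

/-- coordinates on the transported sheaf -/
theorem exists_coord (hout : ∀ v : G.V, ∃ (w : G.V) (e : G.In w), G.src e = v) :
    Nonempty (Coord (TT e) (TTZ e)) := by
  classical
  have τ : ∀ v : G.V, (TT e).F v := fun v => (TT_nonempty e v).some
  have h1 : ∀ (w : G.V) (f : G.In w), ∃ N, ∀ {u : G.V} (p : Pth G u (G.src f)), N ≤ p.len →
      ∃ n, (TT e).resP p ((TT e).res f (τ w)) = ((TTZ e).z n).app _ ((TT e).resP p (τ (G.src f))) :=
    fun w f => TT_loc e _ _
  choose N hN using h1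
  let K := Finset.univ.sup (fun w => Finset.univ.sup (N w))
  have hK : ∀ w f, N w f ≤ K := fun w f =>
    le_trans (Finset.le_sup (f := N w) (Finset.mem_univ f))
      (Finset.le_sup (f := fun w => Finset.univ.sup (N w)) (Finset.mem_univ w))
  let a : ∀ {v : G.V}, QK G K v → (TT e).F v := fun q => (TT e).resP q.1.2 (τ q.1.1)
  have hrel : ∀ {v : G.V} (f : G.In v) (q : QK G K v), ∃ n,
      (TT e).res f (a q) = ((TTZ e).z n).app _ (a (acK K f q)) := by
    intro v f q
    have h2 : (TT e).res f (a q) = (TT e).resP (q.1.2.app (.cons f .nil)) (τ q.1.1) := by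
      rw [Shf.resP_app]; rfl
    rw [h2]
    obtain ⟨⟨w, q⟩, hq⟩ := q
    have h3 : (q.app (.cons f .nil)).len = K + 1 := by
      simp only at hq
      simp [hq]
    simp only [a, acK, ap]
    generalize q.app (.cons f .nil) = r at *
    cases r with
    | nil => simp at h3
    | cons f' r =>
      exact hN w f' r ((hK w f').trans (by simp at h3; omega))
  choose F hF using @hrel
  have hrelP : ∀ {u v : G.V} (p : Pth G u v) (q : QK G K v), ∃ n,
      (TT e).resP p (a q) = ((TTZ e).z n).app _ (a (acP (acK K) p q)) := by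
    intro u v p
    induction p with
    | nil => intro q; exact ⟨0, by rw [ZAct.zero_app]; rfl⟩
    | cons f p ih =>
      intro q
      obtain ⟨n, hn⟩ := ih (acK K f q)
      refine ⟨F f q + n, ?_⟩
      rw [Shf.resP_cons, hF, ← Shf.nat_resP, hn, ← ZAct.add_app]
      rfl
  have : ∀ v, Nonempty (QK G K v) := fun v => exists_fwd hout v K
  exact ⟨{
    Q := QK G K
    ac := acK K
    a := a
    f := F
    rel := fun f q => hF f q
    k := K
    sync := fun p hp q q' => acK_sync K p hp q q'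
    free := fun x n hx => TT_free e x n hx
    gen := by
      intro v h q
      obtain ⟨N', hN'⟩ := TT_loc e (a q) h
      refine ⟨N', fun p hp => ?_⟩
      obtain ⟨n, hn⟩ := hN' p hp
      obtain ⟨m, hm⟩ := hrelP p q
      exact ⟨n + m, by rw [hn, hm, ← ZAct.add_app]⟩ }⟩

end PSnum
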