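import Pool.Agent.H19.PSBasic

open CategoryTheory

namespace PSnum

variable {G : Gr}

noncomputable def cE (v : G.V) : (G.In v × ℕ) ≃ ℕ :=
  Classical.choice nonempty_equiv_of_countable

/-- paths act on points -/
noncomputable def act {u : G.V} : ∀ {v : G.V}, Pth G u v → ℕ → ℕ
  | _, .nil, n => n
  | v, .cons e p, n => cE v (e, act p n)

@[simp] theorem act_nil {u : G.V} (n : ℕ) : act (.nil : Pth G u u) n = n := rfl
@[simp] theorem act_cons {u v : G.V} (e : G.In v) (p : Pth G u (G.src e)) (n : ℕ) :
    act (.cons e p) n = cE v (e, act p n) := rfl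

theorem act_app {u w : G.V} : ∀ {v : G.V} (p : Pth G w v) (q : Pth G u w) (n : ℕ),
    act (p.app q) n = act p (act q n)
  | _, .nil, _, _ => rfl
  | _, .cons e p, q, n => by simp [act_app p]

theorem act_inj : ∀ {v w w' : G.V} (p : Pth G w v) (p' : Pth G w' v) (n n' : ℕ),
    p.len = p'.len → act p n = act p' n' → (⟨w, p⟩ : Tip G v) = ⟨w', p'⟩ ∧ n = n'
  | _, _, _, .nil, .nil, n, n', _, h => ⟨rfl, h⟩
  | _, _, _, .nil, .cons e p', _, _, hl, h => by simp at hl
  | _, _, _, .cons e p, .nil, _, _, hl, h => by simp at hl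
  | v, _, _, .cons e p, .cons e' p', n, n', hl, h => by
      simp only [act_cons, EmbeddingLike.apply_eq_iff_eq, Prod.mk.injEq] at h
      obtain ⟨h1, h2⟩ := h
      subst h1
      obtain ⟨h3, h4⟩ := act_inj p p' n n' (by simpa using hl) h2
      cases h3
      exact ⟨rfl, h4⟩

/-- ambient sheaf of functions on points -/
noncomputable def amb (G : Gr) (A : Type) (s : A ≃ A) : Shf G where
  F _ := ℕ → A
  res {v} e φ := fun n => s (φ (cE v (e, n)))
  glue {v} x := fun m => s.symm (x ((cE v).symm m).1 ((cE v).symm m).2)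
  res_glue {v} x e := by
    funext n
    simp
  glue_res {v} x := by
    funext m
    simp

theorem amb_resP {A : Type} {s : A ≃ A} {u : G.V} : ∀ {v : G.V} (p : Pth G u v)
    (φ : (amb G A s).F v) (n : ℕ), (amb G A s).resP p φ n = s^[p.len] (φ (act p n))
  | _, .nil, _, _ => rfl
  | _, .cons e p, φ, n => by
      rw [Shf.resP_cons, amb_resP p]
      rfl

/-- finite families of vertices -/
structure Fam (G : Gr) where
  ι : Type
  [fin : Fintype ι]
  w : ι → G.V

attribute [instance] Fam.fin

def lagShift (B : Type) : (ℤ × B) ≃ (ℤ × B) where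
  toFun x := (x.1 + 1, x.2)
  invFun x := (x.1 - 1, x.2)
  left_inv x := by simp
  right_inv x := by simp

def isElA (I : Fam G) (v : G.V) (φ : (amb G (ℤ × (I.ι × ℕ)) (lagShift _)).F v) : Prop :=
  ∃ (i : I.ι) (q : Pth G v (I.w i)), φ = fun n => ((q.len : ℤ), (i, act q n))

theorem elA_res (I : Fam G) {v : G.V} (e : G.In v) (i : I.ι) (q : Pth G v (I.w i)) :
    (amb G (ℤ × (I.ι × ℕ)) (lagShift _)).res e (fun n => ((q.len : ℤ), (i, act q n)))
      = fun n => (((q.app (.cons e .nil)).len : ℤ), (i, act (q.app (.cons e .nil)) n)) := by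
  funext n
  simp [amb, lagShift, act_app]

theorem isElA_resClosed (I : Fam G) :
    (amb G (ℤ × (I.ι × ℕ)) (lagShift _)).ResClosed (isElA I) := by
  rintro v e x ⟨i, q, rfl⟩
  exact ⟨i, q.app (.cons e .nil), elA_res I e i q⟩

/-- the free sheaf on a finite family -/
noncomputable def L (I : Fam G) : Shf G :=
  (amb G (ℤ × (I.ι × ℕ)) (lagShift _)).sub (isElA I) (isElA_resClosed I)

noncomputable def el (I : Fam G) {v : G.V} (i : I.ι) (q : Pth G v (I.w i)) : (L I).F v :=
  ⟨fun n => ((q.len : ℤ), (i, act q n)), .base ⟨i, q, rfl⟩⟩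

theorem res_el (I : Fam G) {v : G.V} (e : G.In v) (i : I.ι) (q : Pth G v (I.w i)) :
    (L I).res e (el I i q) = el I i (q.app (.cons e .nil)) :=
  Subtype.ext (elA_res I e i q)

theorem resP_el (I : Fam G) {u : G.V} : ∀ {v : G.V} (p : Pth G u v) (i : I.ι)
    (q : Pth G v (I.w i)), (L I).resP p (el I i q) = el I i (q.app p)
  | _, .nil, i, q => by simp
  | _, .cons e p, i, q => by
      rw [Shf.resP_cons, res_el, resP_el I p, Pth.app_assoc]
      rfl

theorem el_inj (I : Fam G) {v : G.V} (i j : I.ι) (q : Pth G v (I.w i)) (q' : Pth G v (I.w j))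
    (h : el I i q = el I j q') :
    (⟨i, ⟨v, q⟩⟩ : Σ i : I.ι, Tip G (I.w i)) = ⟨j, ⟨v, q'⟩⟩ := by
  have h1 := congrFun (congrArg Subtype.val h) 0
  simp only [el, Prod.mk.injEq, Nat.cast_inj] at h1
  obtain ⟨h1, h2, h3⟩ := h1
  subst h2
  obtain ⟨h4, -⟩ := act_inj q q' 0 0 h1 h3
  rw [h4]

theorem L_mem (I : Fam G) {v : G.V} (z : (L I).F v) :
    (L I).Mem (fun v z => ∃ i q, z = el I (v := v) i q) v z := by
  obtain ⟨φ, hφ⟩ := z
  induction hφ with
  | base h =>
    obtain ⟨i, q, rfl⟩ := h
    exact .base ⟨i, q, rfl⟩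
  | step h ih => exact .step (fun e => ih e)

theorem isEl_resClosed (I : Fam G) :
    (L I).ResClosed (fun v z => ∃ i q, z = el I (v := v) i q) := by
  rintro v e x ⟨i, q, rfl⟩
  exact ⟨i, q.app (.cons e .nil), res_el I e i q⟩

theorem L_depth (I : Fam G) {v : G.V} (z : (L I).F v) :
    ∃ N, ∀ {u : G.V} (p : Pth G u v), N ≤ p.len → ∃ i q, (L I).resP p z = el I (v := u) i q :=
  (L_mem I z).depth (isEl_resClosed I)

noncomputable def gen (I : Fam G) (i : I.ι) : (L I).F (I.w i) := el I i .nil

theorem el_eq_resP (I : Fam G) {v : G.V} (i : I.ι) (q : Pth G v (I.w i)) :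
    el I i q = (L I).resP q (gen I i) := by
  rw [gen, resP_el]
  rfl

section lift

variable {F : Shf G} (I : Fam G) (x : ∀ i, F.F (I.w i))

/-- `y` is the value at `z` of the map extending `x`. -/
def LRel {v : G.V} (z : (L I).F v) (y : F.F v) : Prop :=
  ∀ {u : G.V} (p : Pth G u v) (i : I.ι) (q : Pth G u (I.w i)), (L I).resP p z = el I i q →
    F.resP p y = F.resP q (x i)

theorem LRel_res {v : G.V} {z : (L I).F v} {y : F.F v} (h : LRel I x z y) (e : G.In v) :
    LRel I x ((L I).res e z) (F.res e y) := by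
  intro u p i q hq
  exact h (.cons e p) i q hq

theorem LRel_el {v : G.V} (i : I.ι) (q : Pth G v (I.w i)) :
    LRel I x (el I i q) (F.resP q (x i)) := by
  intro u p j q' h
  rw [resP_el] at h
  have := el_inj I _ _ _ _ h
  simp only [Sigma.mk.injEq] at this
  obtain ⟨h1, h2⟩ := this
  subst h1
  simp only [heq_eq_eq, Sigma.mk.injEq, true_and] at h2
  rw [← h2, Shf.resP_app]

theorem LRel_unique_el {v : G.V} (i : I.ι) (q : Pth G v (I.w i)) (y : F.F v)
    (h : LRel I x (el I i q) y) : y = F.resP q (x i) := by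
  have := h .nil i q rfl
  simpa using this

theorem LRel_existsUnique {v : G.V} (z : (L I).F v) : ∃! y : F.F v, LRel I x z y := by
  induction L_mem I z with
  | base h =>
    obtain ⟨i, q, rfl⟩ := h
    exact ⟨_, LRel_el I x i q, fun y hy => LRel_unique_el I x i q y hy⟩
  | @step v z _ ih =>
    choose y hy hy' using ih
    refine ⟨F.glue y, ?_, ?_⟩
    · intro u p i q hq
      cases p with
      | nil =>
        simp only [Shf.resP_nil] at hq ⊢
        apply F.ext_res
        intro e
        rw [F.res_glue]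
        symm
        apply hy'
        have h1 : (L I).res e z = el I i (q.app (.cons e .nil)) := by
          rw [hq, res_el]
        intro u p j q' h2
        have := LRel_el I x i (q.app (.cons e .nil)) p j q' (by rw [← h1]; exact h2)
        rw [← this, Shf.resP_app]
        rfl
      | cons e p =>
        have := hy e p i q hq
        rw [Shf.resP_cons, F.res_glue, this]
    · intro y' hyy'
      apply F.ext_res
      intro e
      rw [F.res_glue]
      exact hy' e _ (LRel_res I x hyy' e)

noncomputable def lift : L I ⟶ F where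
  app v z := (LRel_existsUnique I x z).choose
  nat {v} e z := by
    have h1 : LRel I x z (LRel_existsUnique I x z).choose :=
      (LRel_existsUnique I x z).choose_spec.1
    have h2 := (LRel_existsUnique I x ((L I).res e z)).choose_spec.2
    exact (h2 _ (LRel_res I x h1 e)).symm

theorem lift_el {v : G.V} (i : I.ι) (q : Pth G v (I.w i)) :
    (lift I x).app v (el I i q) = F.resP q (x i) :=
  LRel_unique_el I x i q _ (LRel_existsUnique I x (el I i q)).choose_spec.1

@[simp] theorem lift_gen (i : I.ι) : (lift I x).app _ (gen I i) = x i := by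
  rw [gen, lift_el]
  rfl

end lift

theorem L_hom_ext {I : Fam G} {F : Shf G} (f g : L I ⟶ F)
    (h : ∀ i, f.app _ (gen I i) = g.app _ (gen I i)) : f = g := by
  ext v z
  induction L_mem I z with
  | base h1 =>
    obtain ⟨i, q, rfl⟩ := h1
    rw [el_eq_resP, Shf.nat_resP, Shf.nat_resP, h]
  | step _ ih =>
    apply F.ext_res
    intro e
    rw [← f.nat, ← g.nat, ih]

theorem eq_lift {I : Fam G} {F : Shf G} (f : L I ⟶ F) :
    f = lift I (fun i => f.app _ (gen I i)) := by
  apply L_hom_ext
  intro i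
  simp

/-- single vertex family -/
def single (v : G.V) : Fam G := { ι := Unit, w := fun _ => v }

noncomputable abbrev y (v : G.V) : Shf G := L (single v)

noncomputable def yg (v : G.V) : (y v).F v := gen (single v) ()

/-- The map from `y v` determined by an element -/
noncomputable def yl {F : Shf G} {v : G.V} (x : F.F v) : y v ⟶ F := lift (single v) (fun _ => x)

@[simp] theorem yl_yg {F : Shf G} {v : G.V} (x : F.F v) : (yl x).app v (yg v) = x :=
  lift_gen (single v) _ ()

theorem y_hom_ext {F : Shf G} {v : G.V} (f g : y v ⟶ F) (h : f.app v (yg v) = g.app v (yg v)) :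
    f = g := L_hom_ext f g (fun _ => h)

theorem yl_app {F : Shf G} {v : G.V} (f : y v ⟶ F) : yl (f.app v (yg v)) = f :=
  y_hom_ext _ _ (by simp)

theorem yl_comp {F F' : Shf G} {v : G.V} (x : F.F v) (f : F ⟶ F') : yl x ≫ f = yl (f.app v x) :=
  y_hom_ext _ _ (by simp)

/-- the restriction map between representables -/
noncomputable def ym {u v : G.V} (p : Pth G u v) : y u ⟶ y v := yl ((y v).resP p (yg v))

theorem ym_comp_yl {F : Shf G} {u v : G.V} (p : Pth G u v) (x : F.F v) :
    ym p ≫ yl x = yl (F.resP p x) := by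
  rw [ym, yl_comp, Shf.nat_resP, yl_yg]

end PSnum
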