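import Pool.Agent.H19.PSPos

open CategoryTheory

namespace PSnum

/-- eventually zero functions -/
def E0 : AddSubgroup (ℤ → ℤ) where
  carrier := {φ | ∃ m0 : ℤ, ∀ m, m0 ≤ m → φ m = 0}
  zero_mem' := ⟨0, fun _ _ => rfl⟩
  add_mem' := by
    rintro a b ⟨m, hm⟩ ⟨m', hm'⟩
    exact ⟨max m m', fun k hk => by
      rw [Pi.add_apply, hm k (le_trans (le_max_left _ _) hk),
        hm' k (le_trans (le_max_right _ _) hk), add_zero]⟩
  neg_mem' := by
    rintro a ⟨m, hm⟩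
    exact ⟨m, fun k hk => by rw [Pi.neg_apply, hm k hk, neg_zero]⟩

abbrev Gm : Type := (ℤ → ℤ) ⧸ E0

def shiftH (n : ℤ) : (ℤ → ℤ) →+ (ℤ → ℤ) where
  toFun φ := fun m => φ (m - n)
  map_zero' := rfl
  map_add' _ _ := rfl

def gmT (n : ℤ) : Gm →+ Gm :=
  QuotientAddGroup.map E0 E0 (shiftH n) (by
    rintro φ ⟨m, hm⟩
    exact ⟨m + n, fun k hk => hm (k - n) (by omega)⟩)

theorem gmT_mk (n : ℤ) (φ : ℤ → ℤ) : gmT n (QuotientAddGroup.mk φ) = QuotientAddGroup.mk (fun m => φ (m - n)) :=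
  rfl

def gmTAct : TAct Gm where
  tp := gmT
  tp_zero x := by
    obtain ⟨φ, rfl⟩ := QuotientAddGroup.mk_surjective x
    rw [gmT_mk]
    simp
  tp_add a b x := by
    obtain ⟨φ, rfl⟩ := QuotientAddGroup.mk_surjective x
    rw [gmT_mk, gmT_mk, gmT_mk]
    congr 1
    funext m
    congr 1
    ring

def GPos (x : Gm) : Prop := ∃ φ : ℤ → ℤ, (QuotientAddGroup.mk φ : Gm) = x ∧ ∃ m0 : ℤ, ∀ m, m0 ≤ m → 1 ≤ φ m

theorem GPos.tp {x : Gm} (h : GPos x) (n : ℤ) : GPos (gmT n x) := by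
  obtain ⟨φ, rfl, m, hm⟩ := h
  exact ⟨_, gmT_mk n φ, m + n, fun k hk => hm _ (by omega)⟩

theorem GPos.add {x z : Gm} (h : GPos x) (h' : GPos z) : GPos (x + z) := by
  obtain ⟨φ, rfl, m, hm⟩ := h
  obtain ⟨ψ, rfl, m', hm'⟩ := h'
  refine ⟨φ + ψ, rfl, max m m', fun k hk => ?_⟩
  have h1 := hm k (le_trans (le_max_left _ _) hk)
  have h2 := hm' k (le_trans (le_max_right _ _) hk)
  rw [Pi.add_apply]
  omega

theorem GPos.sum {ι : Type*} {s : Finset ι} (hs : s.Nonempty) {f : ι → Gm}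
    (h : ∀ i ∈ s, GPos (f i)) : GPos (∑ i ∈ s, f i) := by
  classical
  induction hs using Finset.Nonempty.cons_induction with
  | singleton a => simpa using h a (Finset.mem_singleton_self _)
  | cons a s ha hs ih =>
    rw [Finset.sum_cons]
    exact (h a (Finset.mem_cons_self _ _)).add (ih (fun i hi => h i (Finset.mem_cons_of_mem hi)))

theorem gm_pos {x w : Gm} (hx : GPos x) (hw : GPos w) {F : ℤ} (h : x = gmT F x + w) : 1 ≤ F := by
  obtain ⟨φ, rfl, m1, h1⟩ := hx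
  obtain ⟨ψ, rfl, m2, h2⟩ := hw
  rw [gmT_mk, ← QuotientAddGroup.mk_add, QuotientAddGroup.eq] at h
  obtain ⟨m3, h3⟩ := h
  by_contra hF
  push Not at hF
  set m0 := max m1 (max m2 m3) with hm0
  have hle1 : m1 ≤ m0 := le_max_left _ _
  have hle2 : m2 ≤ m0 := le_trans (le_max_left _ _) (le_max_right _ _)
  have hle3 : m3 ≤ m0 := le_trans (le_max_right _ _) (le_max_right _ _)
  have h4 : ∀ k : ℕ, φ (m0 - k * F) ≤ φ m0 - k := by
    intro k
    induction k with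
    | zero => simp
    | succ k ih =>
      have hk : m0 ≤ m0 - k * F := by
        have : (k : ℤ) * F ≤ 0 := mul_nonpos_of_nonneg_of_nonpos (by positivity) (by omega)
        omega
      have h5 := h3 (m0 - k * F) (by omega)
      have h6 := h2 (m0 - k * F) (by omega)
      simp only [Pi.add_apply, Pi.neg_apply] at h5
      have h7 : m0 - ((k + 1 : ℕ) : ℤ) * F = m0 - k * F - F := by push_cast; ring
      rw [h7]
      push_cast
      omega
  have h8 := h4 (φ m0).toNat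
  have h9 : m0 ≤ m0 - ((φ m0).toNat : ℤ) * F := by
    have : ((φ m0).toNat : ℤ) * F ≤ 0 := mul_nonpos_of_nonneg_of_nonpos (by positivity) (by omega)
    omega
  have h10 := h1 (m0 - ((φ m0).toNat : ℤ) * F) (by omega)
  have h11 := h1 m0 hle1
  have h12 : ((φ m0).toNat : ℤ) = φ m0 := Int.toNat_of_nonneg (by omega)
  omega

variable {G : Gr}

def cnt (v : G.V) : ℤ → ℤ := fun m => (paths G m.toNat v).card

theorem cnt_rel (v : G.V) : (QuotientAddGroup.mk (cnt v) : Gm)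
    = ∑ e : G.In v, gmT 1 (QuotientAddGroup.mk (cnt (G.src e))) := by
  simp only [gmT_mk]
  have h1 : ∑ e : G.In v, (QuotientAddGroup.mk (fun m => cnt (G.src e) (m - 1)) : Gm)
      = (QuotientAddGroup.mk (∑ e : G.In v, fun m => cnt (G.src e) (m - 1)) : Gm) := by
    have := map_sum (QuotientAddGroup.mk' E0) (fun e : G.In v => fun m => cnt (G.src e) (m - 1)) Finset.univ
    exact this.symm
  rw [h1, QuotientAddGroup.eq]
  refine ⟨1, fun m hm => ?_⟩
  simp only [Pi.add_apply, Pi.neg_apply, Finset.sum_apply, cnt]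
  have h2 : m.toNat = (m - 1).toNat + 1 := by omega
  rw [h2]
  have h3 := sum_paths_succ (G := G) (m - 1).toNat v (fun _ => (1 : ℤ))
  simp only [Finset.sum_const, nsmul_eq_mul, mul_one] at h3
  rw [h3]
  simp

theorem cnt_pos (v : G.V) : GPos (QuotientAddGroup.mk (cnt v)) :=
  ⟨cnt v, rfl, 0, fun m _ => by
    have := (paths_nonempty (G := G) m.toNat v).card_pos
    unfold cnt
    exact_mod_cast this⟩

/-- the trivial coordinates on `T1`. -/
noncomputable def T1U (G : Gr) : Coord (T1 G) (T1Z G) :=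
  T1Coord G (fun _ => Unit) (fun _ _ => ()) 0 (fun _ _ _ _ => rfl)

theorem exists_germ_val (G : Gr) : ∃ V : AddVal (T1 G) Gm,
    (∀ {v : G.V} (h : (T1 G).F v) (m : ℤ), V.val (((T1Z G).z m).app _ h) = gmT m (V.val h)) ∧
    ∀ {v : G.V} (h : (T1 G).F v), GPos (V.val h) := by
  obtain ⟨V, hV1, hV2⟩ := (T1U G).exists_val gmTAct (fun {v} _ => QuotientAddGroup.mk (cnt v))
    (fun {v} _ => cnt_rel v)
  refine ⟨V, hV1, ?_⟩
  intro v h
  obtain ⟨N, hN⟩ := T1_depth h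
  rw [V.add_paths N]
  apply GPos.sum (paths_nonempty N v)
  intro p hp
  rw [mem_paths] at hp
  obtain ⟨n, hn⟩ := hN p.2 hp.ge
  rw [hn, hV1]
  apply GPos.tp
  have := hV2 (v := p.1) ()
  change V.val (T1c G p.1) = _ at this
  rw [this]
  exact cnt_pos _

section posF

variable {T' : Shf G} {Z : ZAct T'} (V : AddVal T' Gm)
  (hV1 : ∀ {v : G.V} (h : T'.F v) (m : ℤ), V.val ((Z.z m).app _ h) = gmT m (V.val h))
  (hV2 : ∀ {v : G.V} (h : T'.F v), GPos (V.val h))

include hV1 hV2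

theorem posF_aux {v : G.V} (c : Pth G v v) (hc : ∃ c' ∈ paths G c.len v, c' ≠ ⟨v, c⟩)
    (h : T'.F v) (F : ℤ) (hF : T'.resP c h = (Z.z F).app _ h) : 1 ≤ F := by
  classical
  have h1 := V.add_paths c.len h
  have h2 : (⟨v, c⟩ : Tip G v) ∈ paths G c.len v := mem_paths.2 rfl
  rw [← Finset.add_sum_erase _ _ h2] at h1
  simp only at h1
  rw [hF, hV1] at h1
  refine gm_pos (hV2 h) ?_ h1
  apply GPos.sum
  · obtain ⟨c', hc', hne⟩ := hc
    exact ⟨c', Finset.mem_erase.2 ⟨hne, hc'⟩⟩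
  · intro p _
    exact hV2 _

omit hV1 hV2 in
def cpow {v : G.V} (c : Pth G v v) : ℕ → Pth G v v
  | 0 => .nil
  | n + 1 => c.app (cpow c n)

omit hV1 hV2 in
theorem cpow_len {v : G.V} (c : Pth G v v) (n : ℕ) : (cpow c n).len = n * c.len := by
  induction n with
  | zero => simp [cpow]
  | succ n ih => rw [cpow, Pth.len_app, ih]; ring

omit hV1 hV2 in
theorem cpow_res {v : G.V} (c : Pth G v v) (h : T'.F v) (F : ℤ)
    (hF : T'.resP c h = (Z.z F).app _ h) (n : ℕ) :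
    T'.resP (cpow c n) h = (Z.z (n * F)).app _ h := by
  induction n with
  | zero => simp [cpow, Z.zero_app]
  | succ n ih =>
    rw [cpow, Shf.resP_app, hF, ← Shf.nat_resP, ih, ← Z.add_app]
    congr 2
    push_cast
    ring

theorem posF (hbr : ∀ v : G.V, ∃ M0, ∀ M, M0 ≤ M → 2 ≤ (paths G M v).card)
    {v : G.V} (c : Pth G v v) (hc : 1 ≤ c.len)
    (h : T'.F v) (F : ℤ) (hF : T'.resP c h = (Z.z F).app _ h) : 1 ≤ F := by
  obtain ⟨M0, hM0⟩ := hbr v
  have h1 := cpow_res c h F hF (M0 + 1)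
  have h2 := cpow_len c (M0 + 1)
  have h3 : M0 ≤ (cpow c (M0 + 1)).len := by
    rw [h2]
    nlinarith
  have h4 := hM0 _ h3
  have h5 : ∃ c' ∈ paths G (cpow c (M0 + 1)).len v, c' ≠ ⟨v, cpow c (M0 + 1)⟩ :=
    Finset.exists_mem_ne (by omega) _
  have h6 := posF_aux V hV1 hV2 (cpow c (M0 + 1)) h5 h _ h1
  by_contra hcon
  push Not at hcon
  have : ((M0 + 1 : ℕ) : ℤ) * F ≤ 0 := mul_nonpos_of_nonneg_of_nonpos (by positivity) (by omega)
  omega

end posF

end PSnum
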