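import Pool.Agent.H19.PSExist

open CategoryTheory

namespace PSnum

open scoped LaurentPolynomial
open LaurentPolynomial (T)

/-- evaluation at `T = 1` -/
noncomputable def ev1 : ℤ[T;T⁻¹] →+* ℤ := LaurentPolynomial.eval₂ (RingHom.id ℤ) 1

theorem ev1_T (n : ℤ) : ev1 (T n) = 1 := by
  simp [ev1]

/-- the (transposed) adjacency matrix -/
def adj (G : Gr) : Matrix G.V G.V ℤ := fun v w =>
  ((Finset.univ.filter (fun e : G.In v => G.src e = w)).card : ℤ)

variable {G H : Gr}

theorem T1Coord_fP (Q : G.V → Type) [∀ v, Fintype (Q v)] [∀ v, Nonempty (Q v)]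
    (ac : ∀ {v : G.V} (e : G.In v), Q v → Q (G.src e)) (k : ℕ)
    (sync : ∀ {u v : G.V} (p : Pth G u v), k ≤ p.len → ∀ q q' : Q v, acP ac p q = acP ac p q')
    {u : G.V} : ∀ {v : G.V} (p : Pth G u v) (q : Q v),
      (T1Coord G Q ac k sync).fP p q = p.len
  | _, .nil, _ => rfl
  | _, .cons e p, q => by
      change (1 : ℤ) + (T1Coord G Q ac k sync).fP p (ac e q) = ((p.len + 1 : ℕ) : ℤ)
      rw [T1Coord_fP Q ac k sync p (ac e q)]
      push_cast
      ring

theorem T1Coord_posOne (Q : G.V → Type) [∀ v, Fintype (Q v)] [∀ v, Nonempty (Q v)]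
    (ac : ∀ {v : G.V} (e : G.In v), Q v → Q (G.src e)) (k : ℕ)
    (sync : ∀ {u v : G.V} (p : Pth G u v), k ≤ p.len → ∀ q q' : Q v, acP ac p q = acP ac p q') :
    PosOne (1 - (T1Coord G Q ac k sync).mat).det := by
  apply Coord.det_posOne
  intro v c q hc _
  have := T1Coord_fP Q ac k sync c q
  rw [this]
  exact_mod_cast hc

theorem T1U_posOne (G : Gr) : PosOne (1 - (T1U G).mat).det :=
  T1Coord_posOne (fun _ => Unit) (fun _ _ => ()) 0 (fun _ _ _ _ => rfl)

theorem det_dvd_refl (K K' : Coord (T1 G) (T1Z G)) :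
    (1 - K'.mat).det ∣ (1 - K.mat).det :=
  det_dvd (CategoryTheory.Equivalence.refl (C := Shf G)) (T1Z G) (T1Z G) (Iso.refl _)
    (fun n => (Category.comp_id ((T1Z G).z n)).trans (Category.id_comp ((T1Z G).z n)).symm) K K'

theorem ev1_det {T' : Shf G} {Z : ZAct T'} (K : Coord T' Z) :
    ev1 (1 - K.mat).det = (1 - Matrix.of (fun x w : K.Idx => ∑ e : G.In x.1,
      if (⟨G.src e, K.ac e x.2⟩ : K.Idx) = w then (1 : ℤ) else 0)).det := by
  rw [RingHom.map_det]
  congr 1
  ext x w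
  simp only [RingHom.mapMatrix_apply, Matrix.map_apply, Matrix.sub_apply, map_sub, Coord.mat,
    map_sum, Matrix.of_apply]
  congr 1
  · simp only [Matrix.one_apply]
    split_ifs <;> simp
  · refine Finset.sum_congr rfl (fun e _ => ?_)
    split_ifs
    · exact ev1_T _
    · simp

theorem ev1_T1U (G : Gr) : ev1 (1 - (T1U G).mat).det = (1 - adj G).det := by
  rw [ev1_det]
  let φ : (T1U G).Idx ≃ G.V :=
    { toFun := fun x => x.1
      invFun := fun v => ⟨v, ()⟩
      left_inv := fun x => by cases x; rfl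
      right_inv := fun x => rfl }
  rw [← Matrix.det_submatrix_equiv_self φ]
  congr 1
  ext x w
  simp only [Matrix.sub_apply, Matrix.of_apply, Matrix.submatrix_apply]
  congr 1
  · simp only [Matrix.one_apply, EmbeddingLike.apply_eq_iff_eq]
  · simp only [adj, Finset.card_filter, Nat.cast_sum, Nat.cast_ite, Nat.cast_one, Nat.cast_zero]
    refine Finset.sum_congr rfl (fun e _ => ?_)
    have : ((⟨G.src e, (T1U G).ac e x.2⟩ : (T1U G).Idx) = w) ↔ G.src e = φ w := by
      constructor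
      · intro h
        rw [← h]
        rfl
      · intro h
        apply φ.injective
        exact h
    simp only [this]

theorem trans_val_z {M : Type} [AddCommGroup M] (e : Shf G ≌ Shf H) {TG : Shf G} {TH : Shf H}
    (ZG : ZAct TG) (ZH : ZAct TH) (ι : e.functor.obj TG ≅ TH)
    (hι : ∀ n, e.functor.map (ZG.z n) ≫ ι.hom = ι.hom ≫ ZH.z n) (V : AddVal TH M)
    (φ : ℤ → M →+ M)
    (hV : ∀ {v : H.V} (h : TH.F v) (m : ℤ), V.val ((ZH.z m).app _ h) = φ m (V.val h))
    {v : G.V} (h : TG.F v) (m : ℤ) :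
    (V.trans e ι).val ((ZG.z m).app _ h) = φ m ((V.trans e ι).val h) := by
  change cls V _ (e.functor.map (yl ((ZG.z m).app _ h)) ≫ ι.hom) = _
  rw [← yl_comp, e.functor.map_comp, Category.assoc, hι, ← Category.assoc]
  exact cls_act V (ZH.z m) (φ m) (fun h => hV h m) _ _

noncomputable def ιT (e : Shf G ≌ Shf H) : e.functor.obj (TT e) ≅ T1 H := e.counitIso.app (T1 H)

theorem ιT_act (e : Shf G ≌ Shf H) (n : ℤ) : e.functor.map ((TTZ e).z n) ≫ (ιT e).hom
      = (ιT e).hom ≫ (T1Z H).z n :=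
  e.counit.naturality ((T1Z H).z n)

theorem det_eq (e : Shf G ≌ Shf H)
    (hout : ∀ v : G.V, ∃ (w : G.V) (e : G.In w), G.src e = v)
    (hbr : ∀ v : G.V, ∃ M0, ∀ M, M0 ≤ M → 2 ≤ (paths G M v).card) :
    (1 - adj G).det = (1 - adj H).det := by
  obtain ⟨KG⟩ := exists_coord e hout
  have d1 := det_dvd e (TTZ e) (T1Z H) (ιT e) (ιT_act e) KG (T1U H)
  have d2 := det_dvd e.symm (T1Z H) (TTZ e) (Iso.refl _) (fun n => by
    simp only [Iso.refl_hom]
    erw [Category.id_comp, Category.comp_id]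
    rfl) (T1U H) KG
  -- positivity
  obtain ⟨V, hV1, hV2⟩ := exists_germ_val H
  set V' := V.trans e (ιT e) with hV'
  have hV'1 : ∀ {v : G.V} (h : (TT e).F v) (m : ℤ),
      V'.val (((TTZ e).z m).app _ h) = gmT m (V'.val h) := fun h m =>
    trans_val_z e (TTZ e) (T1Z H) (ιT e) (ιT_act e) V gmT hV1 h m
  have hV'2 : ∀ {v : G.V} (h : (TT e).F v), GPos (V'.val h) := by
    intro v h
    obtain ⟨I, ⟨φ⟩⟩ := fin_obj e v
    have hI := fam_nonempty e φ
    change GPos (cls V _ _)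
    rw [cls_eq V _ I φ]
    exact GPos.sum Finset.univ_nonempty (fun i _ => hV2 _)
  have hpos : PosOne (1 - KG.mat).det := by
    apply Coord.det_posOne
    intro v c q hc hcq
    refine posF V' hV'1 hV'2 hbr c hc (KG.a q) (KG.fP c q) ?_
    rw [KG.relP, hcq]
  have h1 : (1 - KG.mat).det = (1 - (T1U H).mat).det :=
    hpos.eq (T1U_posOne H) d2 d1
  let K0 : Coord (T1 G) (T1Z G) := T1Coord G KG.Q KG.ac KG.k KG.sync
  have h2 : (1 - K0.mat).det = (1 - (T1U G).mat).det :=
    (T1Coord_posOne KG.Q KG.ac KG.k KG.sync).eq (T1U_posOne G) (det_dvd_refl _ _)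
      (det_dvd_refl _ _)
  have h3 : ev1 (1 - KG.mat).det = ev1 (1 - K0.mat).det := by
    rw [ev1_det, ev1_det]
    rfl
  rw [← ev1_T1U, ← ev1_T1U, ← h2, ← h3, h1]

end PSnum
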