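import Pool.Agent.H19.PSDet

open CategoryTheory

namespace PSnum

open scoped LaurentPolynomial
open LaurentPolynomial (T)

/-- exponents at least `k` -/
def Lv (k : ℤ) (x : ℤ[T;T⁻¹]) : Prop := ∃ p : Polynomial ℤ, x = T k * Polynomial.toLaurent p

theorem Lv.zero (k : ℤ) : Lv k 0 := ⟨0, by simp⟩

theorem Lv.add {k : ℤ} {x z : ℤ[T;T⁻¹]} (hx : Lv k x) (hz : Lv k z) : Lv k (x + z) := by
  obtain ⟨p, rfl⟩ := hx
  obtain ⟨q, rfl⟩ := hz
  exact ⟨p + q, by rw [map_add]; ring⟩

theorem Lv.neg {k : ℤ} {x : ℤ[T;T⁻¹]} (hx : Lv k x) : Lv k (-x) := by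
  obtain ⟨p, rfl⟩ := hx
  exact ⟨-p, by rw [map_neg]; ring⟩

theorem Lv.sum {k : ℤ} {ι : Type*} (s : Finset ι) (f : ι → ℤ[T;T⁻¹]) (h : ∀ i ∈ s, Lv k (f i)) :
    Lv k (∑ i ∈ s, f i) := by
  classical
  induction s using Finset.induction_on with
  | empty => simpa using Lv.zero k
  | insert a s ha ih =>
    rw [Finset.sum_insert ha]
    exact (h a (Finset.mem_insert_self _ _)).add (ih (fun i hi => h i (Finset.mem_insert_of_mem hi)))

theorem Lv.mul {k l : ℤ} {x z : ℤ[T;T⁻¹]} (hx : Lv k x) (hz : Lv l z) : Lv (k + l) (x * z) := by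
  obtain ⟨p, rfl⟩ := hx
  obtain ⟨q, rfl⟩ := hz
  exact ⟨p * q, by rw [map_mul, LaurentPolynomial.T_add]; ring⟩

theorem Lv.prod {ι : Type*} (s : Finset ι) (f : ι → ℤ[T;T⁻¹]) (k : ι → ℤ)
    (h : ∀ i ∈ s, Lv (k i) (f i)) : Lv (∑ i ∈ s, k i) (∏ i ∈ s, f i) := by
  classical
  induction s using Finset.induction_on with
  | empty => exact ⟨1, by simp⟩
  | insert a s ha ih =>
    rw [Finset.sum_insert ha, Finset.prod_insert ha]
    exact (h a (Finset.mem_insert_self _ _)).mul (ih (fun i hi => h i (Finset.mem_insert_of_mem hi)))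

theorem Lv.mono {k l : ℤ} (hkl : k ≤ l) {x : ℤ[T;T⁻¹]} (hx : Lv l x) : Lv k x := by
  obtain ⟨p, rfl⟩ := hx
  refine ⟨Polynomial.X ^ (l - k).toNat * p, ?_⟩
  rw [map_mul, Polynomial.toLaurent_X_pow, ← mul_assoc, ← LaurentPolynomial.T_add]
  congr 2
  have := Int.toNat_of_nonneg (sub_nonneg.2 hkl)
  omega

theorem Lv.T (k : ℤ) : Lv k (LaurentPolynomial.T k) := ⟨1, by simp⟩

theorem Lv.zsmul_sign {k : ℤ} (u : ℤˣ) {x : ℤ[T;T⁻¹]} (hx : Lv k x) : Lv k (u • x) := by
  rcases Int.units_eq_one_or u with h | h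
  · rw [h, one_smul]; exact hx
  · rw [h, Units.neg_smul, one_smul]; exact hx.neg

theorem posOne_of_Lv {x : ℤ[T;T⁻¹]} (hx : Lv 1 (x - 1)) : PosOne x := by
  obtain ⟨p, hp⟩ := hx
  refine ⟨1 + Polynomial.X * p, by simp, ?_⟩
  rw [map_add, map_mul, map_one, Polynomial.toLaurent_X, ← hp]
  ring

variable {G : Gr}

namespace Coord

variable {T' : Shf G} {Z : ZAct T'} (K : Coord T' Z)

theorem fP_app {u w : G.V} : ∀ {v : G.V} (p : Pth G w v) (r : Pth G u w) (q : K.Q v),
    K.fP (p.app r) q = K.fP p q + K.fP r (acP K.ac p q)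
  | _, .nil, _, _ => by simp [fP, acP]
  | _, .cons e p, r, q => by simp [fP, acP, fP_app p, add_assoc]

/-- the determinant is `1 +` positive powers if closed walks have positive weight -/
theorem det_posOne
    (hpos : ∀ {v : G.V} (c : Pth G v v) (q : K.Q v), 1 ≤ c.len → acP K.ac c q = q →
      1 ≤ K.fP c q) : PosOne (1 - K.mat).det := by
  classical
  apply posOne_of_Lv
  have hexp : ∀ σ : Equiv.Perm K.Idx, ∏ x, (1 - K.mat) (σ x) x
      = ∑ S ∈ (Finset.univ : Finset K.Idx).powerset, (∏ x ∈ S, (-K.mat (σ x) x)) *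
          ∏ x ∈ Finset.univ \ S, (1 : Matrix K.Idx K.Idx ℤ[T;T⁻¹]) (σ x) x := by
    intro σ
    rw [← Finset.prod_add]
    refine Finset.prod_congr rfl (fun x _ => ?_)
    rw [Matrix.sub_apply]
    ring
  -- main claim
  have main : ∀ (σ : Equiv.Perm K.Idx) (S : Finset K.Idx), S.Nonempty →
      Lv 1 ((∏ x ∈ S, (-K.mat (σ x) x)) *
          ∏ x ∈ Finset.univ \ S, (1 : Matrix K.Idx K.Idx ℤ[T;T⁻¹]) (σ x) x) := by
    intro σ S hS
    by_cases h1 : ∃ x ∉ S, σ x ≠ x
    · obtain ⟨x, hx, hx'⟩ := h1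
      have h0 : ∏ x ∈ Finset.univ \ S, (1 : Matrix K.Idx K.Idx ℤ[T;T⁻¹]) (σ x) x = 0 :=
        Finset.prod_eq_zero (i := x) (by simpa using hx) (Matrix.one_apply_ne hx')
      rw [h0, mul_zero]
      exact Lv.zero 1
    push Not at h1
    by_cases h2 : ∃ x ∈ S, K.mat (σ x) x = 0
    · obtain ⟨x, hx, hx'⟩ := h2
      rw [Finset.prod_eq_zero hx (by rw [hx', neg_zero]), zero_mul]
      exact Lv.zero 1
    push Not at h2
    have h3 : ∏ x ∈ Finset.univ \ S, (1 : Matrix K.Idx K.Idx ℤ[T;T⁻¹]) (σ x) x = 1 := by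
      apply Finset.prod_eq_one
      intro x hx
      rw [h1 x (by simpa using hx), Matrix.one_apply_eq]
    rw [h3, mul_one]
    -- minimal edges
    have h4 : ∀ x ∈ S, ∃ e : G.In (σ x).1, (⟨G.src e, K.ac e (σ x).2⟩ : K.Idx) = x ∧
        Lv (K.f e (σ x).2) (K.mat (σ x) x) := by
      intro x hx
      have hne : ((Finset.univ : Finset (G.In (σ x).1)).filter
          (fun e => (⟨G.src e, K.ac e (σ x).2⟩ : K.Idx) = x)).Nonempty := by
        by_contra hcon
        apply h2 x hx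
        rw [Finset.not_nonempty_iff_eq_empty, Finset.filter_eq_empty_iff] at hcon
        apply Finset.sum_eq_zero
        intro e he
        rw [if_neg (hcon he)]
      obtain ⟨e, he, hmin⟩ := Finset.exists_min_image _ (fun e => K.f e (σ x).2) hne
      refine ⟨e, (Finset.mem_filter.1 he).2, ?_⟩
      apply Lv.sum
      intro e' _
      split_ifs with h5
      · exact (Lv.T _).mono (hmin e' (Finset.mem_filter.2 ⟨Finset.mem_univ _, h5⟩))
      · exact Lv.zero _
    have h4' : ∀ x, ∃ m : ℤ, x ∈ S → ∃ e : G.In (σ x).1, (⟨G.src e, K.ac e (σ x).2⟩ : K.Idx) = x ∧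
        K.f e (σ x).2 = m ∧ Lv m (K.mat (σ x) x) := by
      intro x
      by_cases hx : x ∈ S
      · obtain ⟨e, he, he'⟩ := h4 x hx
        exact ⟨_, fun _ => ⟨e, he, rfl, he'⟩⟩
      · exact ⟨0, fun h => absurd h hx⟩
    choose m hm using h4'
    have h6 : Lv (∑ x ∈ S, m x) (∏ x ∈ S, (-K.mat (σ x) x)) := by
      apply Lv.prod
      intro x hx
      obtain ⟨e, _, _, h⟩ := hm x hx
      exact h.neg
    apply h6.mono
    -- invariance of S
    have hSinv : ∀ x, x ∈ S ↔ σ x ∈ S := by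
      intro x
      constructor
      · intro hx
        by_contra hcon
        have := h1 _ hcon
        have := σ.injective this
        rw [this] at hcon
        exact hcon hx
      · intro hx
        by_contra hcon
        rw [h1 x hcon] at hx
        exact hcon hx
    have hSpow : ∀ (j : ℕ) x, x ∈ S → (σ⁻¹ ^ j) x ∈ S := by
      intro j
      induction j with
      | zero => intro x hx; simpa using hx
      | succ j ih =>
        intro x hx
        rw [pow_succ', Equiv.Perm.mul_apply]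
        rw [hSinv]
        simpa using ih x hx
    have walk : ∀ (n : ℕ) (w : K.Idx), w ∈ S → ∃ (u : G.V) (c : Pth G u w.1), c.len = n ∧
        (⟨u, acP K.ac c w.2⟩ : K.Idx) = (σ⁻¹ ^ n) w ∧
        K.fP c w.2 = ∑ j ∈ Finset.range n, m ((σ⁻¹ ^ (j + 1)) w) := by
      intro n
      induction n with
      | zero =>
        intro w hw
        exact ⟨w.1, .nil, rfl, rfl, rfl⟩
      | succ n ih =>
        intro w hw
        obtain ⟨u, c, hc, hc', hc''⟩ := ih w hw
        have h7 := hSpow (n + 1) w hw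
        obtain ⟨e, he, he', -⟩ := hm _ h7
        have h8 : σ ((σ⁻¹ ^ (n + 1)) w) = ⟨u, acP K.ac c w.2⟩ := by
          rw [hc', pow_succ', Equiv.Perm.mul_apply]
          simp
        have h9 : ∃ e : G.In u, (⟨G.src e, K.ac e (acP K.ac c w.2)⟩ : K.Idx) = (σ⁻¹ ^ (n + 1)) w ∧
            K.f e (acP K.ac c w.2) = m ((σ⁻¹ ^ (n + 1)) w) := by
          revert e
          rw [h8]
          intro e he he'
          exact ⟨e, he, he'⟩
        obtain ⟨e, he, he'⟩ := h9
        refine ⟨G.src e, c.app (.cons e .nil), by simp [hc], ?_, ?_⟩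
        · rw [acP_app]
          exact he
        · rw [fP_app, hc'', Finset.sum_range_succ, ← he']
          simp [fP]
    have hord : 0 < orderOf σ⁻¹ := orderOf_pos _
    have h10 : ∀ w ∈ S, 1 ≤ ∑ j ∈ Finset.range (orderOf σ⁻¹), m ((σ⁻¹ ^ (j + 1)) w) := by
      intro w hw
      obtain ⟨u, c, hc, hc', hc''⟩ := walk (orderOf σ⁻¹) w hw
      rw [← hc'']
      rw [pow_orderOf_eq_one, Equiv.Perm.one_apply] at hc'
      obtain ⟨v, q⟩ := w
      simp only [Sigma.mk.injEq] at hc'
      obtain ⟨h11, h12⟩ := hc'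
      subst h11
      exact hpos c q (by rw [hc]; exact hord) (eq_of_heq h12)
    have h11 : ∑ w ∈ S, ∑ j ∈ Finset.range (orderOf σ⁻¹), m ((σ⁻¹ ^ (j + 1)) w)
        = orderOf σ⁻¹ * ∑ x ∈ S, m x := by
      rw [Finset.sum_comm]
      have : ∀ j ∈ Finset.range (orderOf σ⁻¹), ∑ w ∈ S, m ((σ⁻¹ ^ (j + 1)) w) = ∑ x ∈ S, m x := by
        intro j _
        apply Finset.sum_bij (fun w _ => (σ⁻¹ ^ (j + 1)) w)
        · intro w hw
          exact hSpow _ _ hw
        · intro w _ w' _ h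
          exact (σ⁻¹ ^ (j + 1)).injective h
        · intro w hw
          refine ⟨(σ ^ (j + 1)) w, ?_, ?_⟩
          · have : ∀ (j : ℕ) x, x ∈ S → (σ ^ j) x ∈ S := by
              intro j
              induction j with
              | zero => intro x hx; simpa using hx
              | succ j ih =>
                intro x hx
                rw [pow_succ', Equiv.Perm.mul_apply]
                exact (hSinv _).1 (ih x hx)
            exact this _ _ hw
          · rw [inv_pow]
            simp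
        · intro w _
          rfl
      rw [Finset.sum_congr rfl this]
      simp
    have h12 : (1 : ℤ) ≤ orderOf σ⁻¹ * ∑ x ∈ S, m x := by
      rw [← h11]
      calc (1 : ℤ) ≤ S.card := by exact_mod_cast hS.card_pos
        _ = ∑ w ∈ S, 1 := by simp
        _ ≤ _ := Finset.sum_le_sum h10
    by_contra hcon
    push Not at hcon
    have h13 : (orderOf σ⁻¹ : ℤ) * ∑ x ∈ S, m x ≤ 0 :=
      mul_nonpos_of_nonneg_of_nonpos (by positivity) (by omega)
    omega
  -- assemble
  rw [Matrix.det_apply]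
  have h20 : ∀ σ : Equiv.Perm K.Idx, Lv 1 (Equiv.Perm.sign σ • ∏ x, (1 - K.mat) (σ x) x
      - if σ = 1 then 1 else 0) := by
    intro σ
    rw [hexp]
    have h21 : ∑ S ∈ (Finset.univ : Finset K.Idx).powerset, (∏ x ∈ S, (-K.mat (σ x) x)) *
          ∏ x ∈ Finset.univ \ S, (1 : Matrix K.Idx K.Idx ℤ[T;T⁻¹]) (σ x) x
        = (if σ = 1 then 1 else 0) + ∑ S ∈ ((Finset.univ : Finset K.Idx).powerset).erase ∅,
          (∏ x ∈ S, (-K.mat (σ x) x)) *
          ∏ x ∈ Finset.univ \ S, (1 : Matrix K.Idx K.Idx ℤ[T;T⁻¹]) (σ x) x := by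
      rw [← Finset.add_sum_erase _ _ (Finset.empty_mem_powerset _)]
      congr 1
      simp only [Finset.prod_empty, one_mul, Finset.sdiff_empty]
      split_ifs with h
      · rw [h]
        exact Finset.prod_eq_one (fun x _ => Matrix.one_apply_eq x)
      · have : ∃ x, σ x ≠ x := by
          by_contra hcon
          push Not at hcon
          exact h (Equiv.ext hcon)
        obtain ⟨x, hx⟩ := this
        exact Finset.prod_eq_zero (Finset.mem_univ x) (Matrix.one_apply_ne hx)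
    rw [h21, smul_add]
    have h22 : (Equiv.Perm.sign σ • (if σ = 1 then (1 : ℤ[T;T⁻¹]) else 0)) = if σ = 1 then 1 else 0 := by
      split_ifs with h
      · rw [h]; simp
      · simp
    rw [h22, add_sub_cancel_left]
    apply Lv.zsmul_sign
    apply Lv.sum
    intro S hS
    apply main
    rw [Finset.nonempty_iff_ne_empty]
    exact (Finset.mem_erase.1 hS).1
  have h23 : ∑ σ : Equiv.Perm K.Idx, Equiv.Perm.sign σ • ∏ x, (1 - K.mat) (σ x) x - 1
      = ∑ σ : Equiv.Perm K.Idx, (Equiv.Perm.sign σ • ∏ x, (1 - K.mat) (σ x) x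
      - if σ = 1 then 1 else 0) := by
    rw [Finset.sum_sub_distrib]
    simp
  rw [h23]
  exact Lv.sum _ _ (fun σ _ => h20 σ)

end Coord

end PSnum
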