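import Pool.Agent.H19.PSVal

open CategoryTheory

namespace PSnum

variable {G H : Gr} {M : Type} [AddCommGroup M]

def FinObj (P : Shf G) : Prop := ∃ I : Fam G, Nonempty (L I ≅ P)

open Classical in
noncomputable def cls {T : Shf G} (V : AddVal T M) (P : Shf G) (h : P ⟶ T) : M :=
  if hP : FinObj P then
    ∑ i, V.val (h.app _ (hP.choose_spec.some.hom.app _ (gen hP.choose i))) else 0

theorem cls_eq {T : Shf G} (V : AddVal T M) {P : Shf G} (h : P ⟶ T) (I : Fam G)
    (φ : L I ≅ P) : cls V P h = ∑ i, V.val (h.app _ (φ.hom.app _ (gen I i))) := by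
  have hP : FinObj P := ⟨I, ⟨φ⟩⟩
  rw [cls, dif_pos hP]
  have := inv_iso V I hP.choose (φ ≪≫ hP.choose_spec.some.symm) (hP.choose_spec.some.hom ≫ h)
  simp only [Iso.trans_hom, Iso.symm_hom, Shf.comp_app] at this
  rw [← this]
  refine Finset.sum_congr rfl (fun i _ => ?_)
  have h1 : ∀ {v : G.V} (x : P.F v), hP.choose_spec.some.hom.app v
      (hP.choose_spec.some.inv.app v x) = x := by
    intro v x
    have := congrArg (fun t => Shf.Hom.app t v x) hP.choose_spec.some.inv_hom_id
    exact this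
  rw [h1]

theorem cls_L {T : Shf G} (V : AddVal T M) (I : Fam G) (h : L I ⟶ T) :
    cls V (L I) h = ∑ i, V.val (h.app _ (gen I i)) :=
  cls_eq V h I (Iso.refl _)

theorem cls_y {T : Shf G} (V : AddVal T M) {v : G.V} (h : y v ⟶ T) :
    cls V (y v) h = V.val (h.app _ (yg v)) := by
  rw [cls_L]
  exact Fintype.sum_unique (ι := Unit) _

theorem cls_iso {T : Shf G} (V : AddVal T M) {P P' : Shf G} (hP : FinObj P) (ψ : P ≅ P')
    (h : P' ⟶ T) : cls V P (ψ.hom ≫ h) = cls V P' h := by
  obtain ⟨I, ⟨φ⟩⟩ := hP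
  rw [cls_eq V _ I φ, cls_eq V _ I (φ ≪≫ ψ)]
  rfl

theorem cls_cop {T : Shf G} (V : AddVal T M) {K : Type} [Fintype K] {P : K → Shf G} {Q : Shf G}
    {j : ∀ k, P k ⟶ Q} (hj : IsCop j) (hP : ∀ k, FinObj (P k)) (h : Q ⟶ T) :
    FinObj Q ∧ cls V Q h = ∑ k, cls V (P k) (j k ≫ h) := by
  choose I φ using hP
  have φ := fun k => (φ k).some
  let J : Fam G := { ι := Σ k, (I k).ι, w := fun x => (I x.1).w x.2 }
  let f : L J ⟶ Q := lift J (fun x => (j x.1).app _ ((φ x.1).hom.app _ (gen (I x.1) x.2)))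
  obtain ⟨g, hg, -⟩ := hj (L J) (fun k => (φ k).inv ≫ lift (I k) (fun i => gen J ⟨k, i⟩))
  have hfg : f ≫ g = 𝟙 _ := by
    apply L_hom_ext
    rintro ⟨k, i⟩
    rw [Shf.comp_app]
    have h1 : f.app _ (gen J ⟨k, i⟩) = (j k).app _ ((φ k).hom.app _ (gen (I k) i)) := by
      exact lift_gen J _ _
    rw [h1]
    have h2 := congrArg (fun t => Shf.Hom.app t _ ((φ k).hom.app _ (gen (I k) i))) (hg k)
    simp only [Shf.comp_app] at h2
    rw [h2]
    have h3 := congrArg (fun t => Shf.Hom.app t _ (gen (I k) i)) (φ k).hom_inv_id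
    simp only [Shf.comp_app] at h3
    rw [h3, Shf.id_app, lift_gen]
    rfl
  have hgf : g ≫ f = 𝟙 _ := by
    apply hj.hom_ext
    intro k
    rw [← Category.assoc, hg k, Category.comp_id, Category.assoc]
    have h1 : lift (I k) (fun i => gen J ⟨k, i⟩) ≫ f = (φ k).hom ≫ j k := by
      apply L_hom_ext
      intro i
      rw [Shf.comp_app, lift_gen, Shf.comp_app]
      exact lift_gen J _ ⟨k, i⟩
    rw [h1]
    simp
  let ψ : L J ≅ Q := ⟨f, g, hfg, hgf⟩
  refine ⟨⟨J, ⟨ψ⟩⟩, ?_⟩
  rw [cls_eq V h J ψ]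
  have h4 : ∀ k, cls V (P k) (j k ≫ h) = ∑ i, V.val ((j k ≫ h).app _ ((φ k).hom.app _ (gen (I k) i))) :=
    fun k => cls_eq V _ (I k) (φ k)
  simp only [h4]
  rw [← Finset.univ_sigma_univ, Finset.sum_sigma]
  refine Finset.sum_congr rfl (fun k _ => Finset.sum_congr rfl (fun i _ => ?_))
  rw [Shf.comp_app]
  congr 2
  exact lift_gen J _ _

theorem cop_res (v : G.V) :
    IsCop (K := G.In v) (P := fun e => y (G.src e)) (Q := y v)
      (fun e => yl ((y v).res e (yg v))) := by
  intro Z g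
  refine ⟨yl (Z.glue (fun e => (g e).app _ (yg _))), ?_, ?_⟩
  · intro e
    rw [yl_comp, Shf.Hom.nat, yl_yg, Z.res_glue]
    exact yl_app _
  · intro t ht
    apply y_hom_ext
    rw [yl_yg]
    apply Z.ext_res
    intro e
    rw [Z.res_glue, ← ht e, yl_comp, yl_yg, t.nat]

/-- transport of an additive valuation along an equivalence -/
noncomputable def AddVal.trans (e : Shf G ≌ Shf H) {TG : Shf G} {TH : Shf H}
    (ι : e.functor.obj TG ≅ TH) (V : AddVal TH M) : AddVal TG M where
  val {v} h := cls V (e.functor.obj (y v)) (e.functor.map (yl h) ≫ ι.hom)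
  add {v} h := by
    rw [(cls_cop V ((cop_res v).map e) (fun f => fin_obj e _) _).2]
    refine Finset.sum_congr rfl (fun f _ => ?_)
    rw [← Category.assoc, ← e.functor.map_comp, yl_comp, Shf.Hom.nat, yl_yg]

def invIso (e : Shf G ≌ Shf H) {TG : Shf G} {TH : Shf H}
    (ι : e.functor.obj TG ≅ TH) : e.symm.functor.obj TH ≅ TG :=
  e.inverse.mapIso ι.symm ≪≫ (e.unitIso.app TG).symm

theorem trans_trans (e : Shf G ≌ Shf H) {TG : Shf G} {TH : Shf H}
    (ι : e.functor.obj TG ≅ TH) (V : AddVal TH M) {w : H.V} (h : TH.F w) :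
    ((V.trans e ι).trans e.symm (invIso e ι)).val h = V.val h := by
  obtain ⟨J, ⟨φ⟩⟩ := fin_obj e.symm w
  let k : L J ⟶ TG := φ.hom ≫ e.symm.functor.map (yl h) ≫ (invIso e ι).hom
  have h1 : ((V.trans e ι).trans e.symm (invIso e ι)).val h
      = ∑ j, (V.trans e ι).val (k.app _ (gen J j)) := by
    change cls _ _ _ = _
    rw [cls_eq _ _ J φ]
    rfl
  have h2 : ∀ j, (V.trans e ι).val (k.app _ (gen J j))
      = cls V (e.functor.obj (y (J.w j))) (e.functor.map (yl (gen J j)) ≫
          (e.functor.map k ≫ ι.hom)) := by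
    intro j
    change cls V (e.functor.obj (y (J.w j))) (e.functor.map (yl (k.app _ (gen J j))) ≫ ι.hom) = _
    rw [← Category.assoc, ← e.functor.map_comp, yl_comp]
  have h3 := (cls_cop V ((cop_fam J).map e) (fun f => fin_obj e _) (e.functor.map k ≫ ι.hom))
  rw [h1, Finset.sum_congr rfl (fun j _ => h2 j), ← h3.2]
  let ψ : e.functor.obj (L J) ≅ y w := e.functor.mapIso φ ≪≫ e.counitIso.app (y w)
  have h4 : e.functor.map k ≫ ι.hom = ψ.hom ≫ yl h := by
    have h5 : e.functor.map (invIso e ι).hom ≫ ι.hom = e.counit.app TH := by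
      simp only [invIso, Iso.trans_hom, Iso.symm_hom, Iso.app_inv, Functor.mapIso_hom,
        Functor.map_comp, Category.assoc]
      have h6 : e.functor.map (e.unitIso.inv.app TG) = e.counit.app (e.functor.obj TG) := by
        have := e.counit_app_functor TG
        rw [this]
      rw [h6]
      have h7 := e.counit.naturality ι.hom
      have h8 := e.counit.naturality ι.inv
      simp only [Functor.comp_obj, Functor.comp_map, Functor.id_obj, Functor.id_map] at h7 h8
      rw [← h7]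
      erw [← Category.assoc, ← e.functor.map_comp, ← e.inverse.map_comp]
      simp
    have h9 := e.counit.naturality (yl h)
    simp only [Functor.comp_obj, Functor.comp_map, Functor.id_obj, Functor.id_map] at h9
    simp only [k, ψ, Functor.map_comp, Category.assoc, h5, Iso.trans_hom, Functor.mapIso_hom,
      Iso.app_hom]
    exact congrArg (e.functor.map φ.hom ≫ ·) h9
  rw [h4, cls_iso V h3.1 ψ (yl h), cls_y, yl_yg]

end PSnum
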