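import Pool.Agent.H19.PSCover

open CategoryTheory

namespace PSnum

variable {G H : Gr}

/-- additive valuations on a sheaf -/
structure AddVal (T : Shf G) (M : Type) [AddCommGroup M] where
  val : ∀ {v : G.V}, T.F v → M
  add : ∀ {v : G.V} (h : T.F v), val h = ∑ e, val (T.res e h)

variable {M : Type} [AddCommGroup M]

theorem AddVal.add_paths {T : Shf G} (V : AddVal T M) : ∀ (N : ℕ) {v : G.V} (h : T.F v),
    V.val h = ∑ p ∈ paths G N v, V.val (T.resP p.2 h)
  | 0, v, h => by simp [paths]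
  | N + 1, v, h => by
      rw [sum_paths_succ, V.add h]
      refine Finset.sum_congr rfl (fun e _ => ?_)
      rw [V.add_paths N (T.res e h)]
      rfl

theorem el_congr (J : Fam G) {u : G.V} {j j' : J.ι} {q : Pth G u (J.w j)}
    {q' : Pth G u (J.w j')}
    (h : (⟨j, ⟨u, q⟩⟩ : Σ j : J.ι, Tip G (J.w j)) = ⟨j', ⟨u, q'⟩⟩) : el J j q = el J j' q' := by
  simp only [Sigma.mk.injEq] at h
  obtain ⟨h1, h2⟩ := h
  subst h1
  simp only [heq_eq_eq, Sigma.mk.injEq, true_and] at h2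
  rw [h2]

theorem inv_iso {T : Shf G} (V : AddVal T M) (I J : Fam G) (θ : L I ≅ L J) (h : L J ⟶ T) :
    ∑ i, V.val (h.app _ (θ.hom.app _ (gen I i))) = ∑ j, V.val (h.app _ (gen J j)) := by
  classical
  have h1 : ∀ i : I.ι, ∃ N, ∀ {u : G.V} (p : Pth G u (I.w i)), N ≤ p.len →
      ∃ j q, (L J).resP p (θ.hom.app _ (gen I i)) = el J (v := u) j q :=
    fun i => L_depth J _
  choose N' hN' using h1
  obtain ⟨N, hN⟩ : ∃ N, ∀ i, N' i ≤ N := ⟨Finset.univ.sup N', fun i => Finset.le_sup (Finset.mem_univ i)⟩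
  let E : Finset (Σ i : I.ι, Tip G (I.w i)) :=
    ((Finset.univ : Finset I.ι).sigma (fun i => paths G N (I.w i)))
  have hE : ∀ x, x ∈ E ↔ x.2.2.len = N := by
    intro x
    simp [E, mem_paths]
  have h2 : ∀ x : E, ∃ (j : J.ι) (q : Pth G x.1.2.1 (J.w j)),
      θ.hom.app _ (el I x.1.1 x.1.2.2) = el J j q := by
    intro x
    obtain ⟨j, q, hq⟩ := hN' x.1.1 x.1.2.2 (by rw [(hE _).1 x.2]; exact hN _)
    exact ⟨j, q, by rw [← hq, el_eq_resP, Shf.nat_resP]⟩
  choose jj qq hq using h2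
  obtain ⟨R, hR⟩ : ∃ R, ∀ x, (qq x).len ≤ R :=
    ⟨Finset.univ.sup (fun x => (qq x).len), fun x => Finset.le_sup (f := fun x => (qq x).len) (Finset.mem_univ x)⟩
  let g : (Σ j : J.ι, Tip G (J.w j)) → M := fun z => V.val (h.app _ (el J z.1 z.2.2))
  have hL : ∑ i, V.val (h.app _ (θ.hom.app _ (gen I i)))
      = ∑ z ∈ (Finset.univ : Finset E).sigma (fun x => paths G (R - (qq x).len) x.1.2.1),
        g ⟨jj z.1, ⟨z.2.1, (qq z.1).app z.2.2⟩⟩ := by
    rw [Finset.sum_sigma]
    have : ∀ x : E, ∑ r ∈ paths G (R - (qq x).len) x.1.2.1,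
        g ⟨jj x, ⟨r.1, (qq x).app r.2⟩⟩ = V.val (h.app _ (θ.hom.app _ (el I x.1.1 x.1.2.2))) := by
      intro x
      rw [hq x, V.add_paths (R - (qq x).len)]
      refine Finset.sum_congr rfl (fun r _ => ?_)
      simp only [g]
      rw [← resP_el, Shf.nat_resP]
    rw [Finset.sum_congr rfl (fun x _ => this x)]
    rw [Finset.sum_coe_sort E (fun x => V.val (h.app _ (θ.hom.app _ (el I x.1 x.2.2))))]
    rw [Finset.sum_sigma]
    refine Finset.sum_congr rfl (fun i _ => ?_)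
    rw [V.add_paths N]
    refine Finset.sum_congr rfl (fun r _ => ?_)
    simp only
    rw [el_eq_resP, Shf.nat_resP, Shf.nat_resP]
  have hRR : ∑ j, V.val (h.app _ (gen J j))
      = ∑ z ∈ (Finset.univ : Finset J.ι).sigma (fun j => paths G R (J.w j)), g z := by
    rw [Finset.sum_sigma]
    refine Finset.sum_congr rfl (fun j _ => ?_)
    rw [V.add_paths R]
    refine Finset.sum_congr rfl (fun r _ => ?_)
    simp only [g]
    rw [el_eq_resP, Shf.nat_resP]
  rw [hL, hRR]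
  have hinj : ∀ {v : G.V}, Function.Injective (θ.hom.app v) := fun {v} => Shf.injective_of_isIso θ.hom v
  apply Finset.sum_nbij (fun z => (⟨jj z.1, ⟨z.2.1, (qq z.1).app z.2.2⟩⟩ : Σ j : J.ι, Tip G (J.w j)))
  · rintro ⟨x, r⟩ hz
    simp only [Finset.mem_sigma, Finset.mem_univ, true_and, mem_paths, Pth.len_app] at hz ⊢
    rw [hz]
    have := hR x
    omega
  · rintro ⟨x, r⟩ hz ⟨x', r'⟩ hz' heq
    have hx := (hE _).1 x.2
    have hx' := (hE _).1 x'.2
    have h3 : ∀ (x : E) (r : Tip G x.1.2.1),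
        θ.hom.app _ (el I x.1.1 (x.1.2.2.app r.2)) = el J (jj x) ((qq x).app r.2) := by
      intro x r
      rw [← resP_el, Shf.nat_resP, hq, resP_el]
    have h4 := h3 x r
    have h5 := h3 x' r'
    obtain ⟨⟨i, w, p⟩, hxE⟩ := x
    obtain ⟨⟨i', w', p'⟩, hxE'⟩ := x'
    obtain ⟨u, r⟩ := r
    obtain ⟨u', r'⟩ := r'
    simp only at hx hx' heq h4 h5
    have hu : u = u' := by
      have := congrArg (fun z : (Σ j : J.ι, Tip G (J.w j)) => z.2.1) heq
      exact this
    subst hu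
    have h6 : el J (jj ⟨⟨i, w, p⟩, hxE⟩) ((qq ⟨⟨i, w, p⟩, hxE⟩).app r)
        = el J (jj ⟨⟨i', w', p'⟩, hxE'⟩) ((qq ⟨⟨i', w', p'⟩, hxE'⟩).app r') := el_congr J heq
    have h7 := hinj (h4.trans (h6.trans h5.symm))
    have h8 := el_inj I _ _ _ _ h7
    simp only [Sigma.mk.injEq] at h8
    obtain ⟨h9, h10⟩ := h8
    subst h9
    simp only [heq_eq_eq, Sigma.mk.injEq, true_and] at h10
    have h11 := Pth.app_inj _ _ _ _ (by rw [hx, hx']) h10
    cases h11
    rfl
  · rintro ⟨j, u, p'⟩ hz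
    simp only [Finset.coe_sigma, Finset.mem_coe, Set.mem_sigma_iff,
      true_and, mem_paths, Finset.coe_univ, Set.mem_univ] at hz
    obtain ⟨z, hz'⟩ := Shf.surjective_of_isIso θ.hom u (el J j p')
    obtain ⟨N1, hN1⟩ := L_depth I z
    obtain ⟨⟨u', r'⟩, hr'⟩ := paths_nonempty (max N1 N) u
    rw [mem_paths] at hr'
    simp only at hr'
    obtain ⟨i, s, his⟩ := hN1 r' (by omega)
    -- extend further so that `s` is long
    have his2 : (L I).resP (r'.app (paths_nonempty N u').choose.2) z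
        = el I i (s.app (paths_nonempty N u').choose.2) := by
      rw [Shf.resP_app, his, resP_el]
    set t := (paths_nonempty N u').choose with ht
    have htl : t.2.len = N := mem_paths.1 (paths_nonempty N u').choose_spec
    obtain ⟨w, p, r1, hp, hs⟩ := (s.app t.2).exists_split N (by simp [htl])
    let x : E := ⟨⟨i, ⟨w, p⟩⟩, (hE _).2 hp⟩
    have h3 : el J j (p'.app (r'.app t.2)) = el J (jj x) ((qq x).app r1) := by
      rw [← resP_el, ← hz', ← Shf.nat_resP, his2, hs, ← resP_el, Shf.nat_resP, ← resP_el,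
        ← hq x]
    have h4 := el_inj J _ _ _ _ h3
    have h5 : jj x = j := (congrArg Sigma.fst h4).symm
    have h6 := hR x
    have h7 : ∃ (r : Pth G u x.1.2.1), (⟨jj x, ⟨u, (qq x).app r⟩⟩ : Σ j : J.ι, Tip G (J.w j))
        = ⟨j, ⟨u, p'⟩⟩ := by
      generalize qq x = q at *
      generalize jj x = j1 at *
      subst h5
      simp only [Sigma.mk.injEq, heq_eq_eq, true_and] at h4
      obtain ⟨r, hr, -⟩ := Pth.app_pfx q r1 p' (r'.app t.2) (by omega) h4.symm
      exact ⟨r, by rw [hr]⟩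
    obtain ⟨r, hr⟩ := h7
    refine ⟨⟨x, ⟨u, r⟩⟩, ?_, hr⟩
    have h8 : ((qq x).app r).len = R := by
      have := congrArg (fun z : (Σ j : J.ι, Tip G (J.w j)) => z.2.2.len) hr
      simp only at this
      rw [this, hz]
    simp only [Finset.coe_sigma, Finset.mem_coe, Set.mem_sigma_iff,
      true_and, mem_paths, Finset.coe_univ, Set.mem_univ]
    simp only [Pth.len_app] at h8
    omega
  · intro z _
    rfl

end PSnum
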